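import Pool.Agent.Helper98.TW.Stmts

/-!
Small shared lemmas for the sheet TW (MP_7a8f48_an).
-/

set_option linter.unusedSectionVars false

open MeasureTheory Filter Topology Finset
open scoped ComplexConjugate

namespace Pool.Agent.Helper98.TW

open Pool.Agent.Helper16.AZ (T mm)

section basic

variable {Ω : Type} [m0 : MeasurableSpace Ω] {μ : Measure Ω} {𝒜 ℬ 𝒞 𝒟 : SA Ω} {f g : Ω → ℂ}
  {R R' : Ω → Ω}

/-! ### `AM` -/

theorem am_iff : AM μ 𝒜 f ↔ ∃ g : Ω → ℂ, Measurable[𝒜] g ∧ f =ᵐ[μ] g := by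
  constructor
  · rintro ⟨g, hg, h⟩
    exact ⟨g, hg.measurable, h⟩
  · rintro ⟨g, hg, h⟩
    exact ⟨g, hg.stronglyMeasurable, h⟩

theorem am_of (h : Measurable[𝒜] f) : AM μ 𝒜 f := am_iff.2 ⟨f, h, Filter.EventuallyEq.rfl⟩

theorem am_congr (h : AM μ 𝒜 f) (hfg : f =ᵐ[μ] g) : AM μ 𝒜 g :=
  AEStronglyMeasurable.congr h hfg

theorem am_const (c : ℂ) : AM μ 𝒜 (fun _ => c) := am_of measurable_const

theorem am_mul (hf : AM μ 𝒜 f) (hg : AM μ 𝒜 g) : AM μ 𝒜 (fun x => f x * g x) :=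
  AEStronglyMeasurable.mul hf hg

theorem am_add (hf : AM μ 𝒜 f) (hg : AM μ 𝒜 g) : AM μ 𝒜 (fun x => f x + g x) :=
  AEStronglyMeasurable.add hf hg

theorem am_sub (hf : AM μ 𝒜 f) (hg : AM μ 𝒜 g) : AM μ 𝒜 (fun x => f x - g x) :=
  AEStronglyMeasurable.sub hf hg

theorem am_pow (hf : AM μ 𝒜 f) (n : ℕ) : AM μ 𝒜 (fun x => f x ^ n) :=
  AEStronglyMeasurable.pow hf n

theorem am_cont {φ : ℂ → ℂ} (hφ : Measurable φ) (hf : AM μ 𝒜 f) : AM μ 𝒜 (fun x => φ (f x)) := by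
  obtain ⟨g, hg, h⟩ := am_iff.1 hf
  refine am_iff.2 ⟨fun x => φ (g x), hφ.comp hg, ?_⟩
  filter_upwards [h] with x hx
  rw [hx]

theorem am_conj (hf : AM μ 𝒜 f) : AM μ 𝒜 (fun x => conj (f x)) :=
  am_cont Complex.continuous_conj.measurable hf

theorem am_finset_sum {ι : Type} (s : Finset ι) {F : ι → Ω → ℂ} (h : ∀ i ∈ s, AM μ 𝒜 (F i)) :
    AM μ 𝒜 (fun x => ∑ i ∈ s, F i x) := by
  classical
  induction s using Finset.induction_on with
  | empty => simpa using am_const (μ := μ) (𝒜 := 𝒜) 0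
  | insert a s ha ih =>
    have := am_add (h a (Finset.mem_insert_self a s))
      (ih fun i hi => h i (Finset.mem_insert_of_mem hi))
    refine am_congr this (Filter.Eventually.of_forall fun x => ?_)
    simp [Finset.sum_insert ha]

theorem am_of_tendsto {F : ℕ → Ω → ℂ} (hF : ∀ n, AM μ 𝒟 (F n))
    (h : ∀ᵐ x ∂μ, Tendsto (fun n => F n x) atTop (𝓝 (g x))) : AM μ 𝒟 g := by
  choose G hG hFG using fun n => am_iff.1 (hF n)
  have hall : ∀ᵐ x ∂μ, ∀ n, F n x = G n x := ae_all_iff.2 hFG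
  have hL : StronglyMeasurable[𝒟] (fun x => limUnder atTop (fun n => G n x)) :=
    @StronglyMeasurable.limUnder ℕ Ω ℂ 𝒟 _ _ atTop _ G _ _ fun n => (hG n).stronglyMeasurable
  refine ⟨_, hL, ?_⟩
  filter_upwards [h, hall] with x hx hx'
  have h1 : Tendsto (fun n => G n x) atTop (𝓝 (g x)) := hx.congr fun n => hx' n
  exact h1.limUnder_eq.symm

/-! ### sigma algebras -/

theorem am_mono (h : @LE.le (MeasurableSpace Ω) _ 𝒜 ℬ) (hf : AM μ 𝒜 f) : AM μ ℬ f :=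
  AEStronglyMeasurable.mono h hf

theorem le_jo_left : @LE.le (MeasurableSpace Ω) _ 𝒜 (jo 𝒜 ℬ) :=
  le_sup_left (α := MeasurableSpace Ω)

theorem le_jo_right : @LE.le (MeasurableSpace Ω) _ ℬ (jo 𝒜 ℬ) :=
  le_sup_right (α := MeasurableSpace Ω)

theorem lm_jo (h1 : Lm 𝒜) (h2 : Lm ℬ) : Lm (jo 𝒜 ℬ) := sup_le (α := MeasurableSpace Ω) h1 h2

theorem lm_bo : Lm (bo : SA Ω) := bot_le (α := MeasurableSpace Ω)

theorem lm_sg {Φ : Set (Ω → ℂ)} (h : ∀ φ ∈ Φ, Measurable φ) : Lm (sg Φ) :=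
  iSup₂_le fun φ hφ => (h φ hφ).comap_le

theorem lm_cm {Ω' : Type} [MeasurableSpace Ω'] {g : Ω → Ω'} (hg : Measurable g) {ℰ : SA Ω'}
    (h : Lm ℰ) : Lm (cm g ℰ) :=
  (MeasurableSpace.comap_mono (g := g) h).trans hg.comap_le

theorem am_jo_left (hf : AM μ 𝒜 f) : AM μ (jo 𝒜 ℬ) f := am_mono le_jo_left hf

theorem am_jo_right (hf : AM μ ℬ f) : AM μ (jo 𝒜 ℬ) f := am_mono le_jo_right hf

theorem le_sg {Φ : Set (Ω → ℂ)} {φ : Ω → ℂ} (h : φ ∈ Φ) :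
    @LE.le (MeasurableSpace Ω) _ (MeasurableSpace.comap φ inferInstance) (sg Φ) :=
  le_iSup₂_of_le (α := MeasurableSpace Ω) φ h le_rfl

theorem am_sg {Φ : Set (Ω → ℂ)} {φ : Ω → ℂ} (h : φ ∈ Φ) : AM μ (sg Φ) φ := by
  apply am_of
  exact (@Measurable.mono _ _ _ _ _ _ _ (comap_measurable φ) (le_sg h) le_rfl)

theorem lq_jo_left : LQ μ 𝒜 (jo 𝒜 ℬ) := fun _ => am_jo_left

theorem lq_jo_right : LQ μ ℬ (jo 𝒜 ℬ) := fun _ => am_jo_right

theorem lq_refl : LQ μ 𝒜 𝒜 := fun _ h => h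

theorem lq_trans (h1 : LQ μ 𝒜 ℬ) (h2 : LQ μ ℬ 𝒞) : LQ μ 𝒜 𝒞 := fun f hf => h2 f (h1 f hf)

theorem lq_of_le (h : @LE.le (MeasurableSpace Ω) _ 𝒜 ℬ) : LQ μ 𝒜 ℬ := fun _ => am_mono h

theorem lq_bo : LQ μ bo 𝒜 := lq_of_le (bot_le (α := MeasurableSpace Ω))

/-- sets of `𝒜` are almost everywhere equal to sets of `𝒟` -/
theorem set_of_lq (h : LQ μ 𝒜 𝒟) {s : Set Ω} (hs : MeasurableSet[𝒜] s) :
    ∃ t, MeasurableSet[𝒟] t ∧ s =ᵐ[μ] t := by
  have h1 : AM μ 𝒜 (s.indicator fun _ => (1 : ℂ)) :=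
    am_of ((@measurable_const _ _ _ 𝒜 (1 : ℂ)).indicator hs)
  obtain ⟨g, hg, hfg⟩ := am_iff.1 (h _ h1)
  refine ⟨g ⁻¹' {1}, hg (measurableSet_singleton 1), ?_⟩
  refine eventuallyEq_set.2 ?_
  filter_upwards [hfg] with x hx
  by_cases hxs : x ∈ s
  · simp only [Set.indicator_of_mem hxs] at hx
    simp [hxs, ← hx]
  · simp only [Set.indicator_of_notMem hxs] at hx
    simp [hxs, ← hx]

/-- a function which is measurable for a sigma algebra of sets that are almost everywhere equal to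
sets of `𝒟` -/
theorem am_of_sets (h : ∀ s, MeasurableSet[𝒜] s → ∃ t, MeasurableSet[𝒟] t ∧ s =ᵐ[μ] t)
    (hf : AM μ 𝒜 f) : AM μ 𝒟 f := by
  obtain ⟨g, hg, hfg⟩ := hf
  refine am_congr ?_ hfg.symm
  obtain ⟨G0, hG0⟩ : ∃ G : ℕ → @SimpleFunc Ω 𝒜 ℂ, ∀ x,
      Tendsto (fun n => @SimpleFunc.toFun Ω 𝒜 ℂ (G n) x) atTop (𝓝 (g x)) := hg
  obtain ⟨G, hG, hGf, hGm⟩ : ∃ G : ℕ → Ω → ℂ, (∀ x, Tendsto (fun n => G n x) atTop (𝓝 (g x))) ∧
      (∀ n, (Set.range (G n)).Finite) ∧ ∀ n c, MeasurableSet[𝒜] (G n ⁻¹' {c}) :=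
    ⟨fun n => @SimpleFunc.toFun Ω 𝒜 ℂ (G0 n), hG0,
      fun n => @SimpleFunc.finite_range' Ω 𝒜 ℂ (G0 n),
      fun n c => @SimpleFunc.measurableSet_fiber' Ω 𝒜 ℂ (G0 n) c⟩
  refine am_of_tendsto (F := G) (fun n => ?_) (Eventually.of_forall hG)
  have hsum : ∀ x, G n x =
      ∑ c ∈ (hGf n).toFinset, (G n ⁻¹' {c}).indicator (fun _ => c) x := by
    intro x
    rw [Finset.sum_eq_single (G n x)]
    · simp
    · intro c _ hc
      rw [Set.indicator_of_notMem]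
      simpa using fun h => hc h.symm
    · intro hx
      exact absurd (by simp) hx
  refine am_congr ?_ (Eventually.of_forall fun x => (hsum x).symm)
  refine am_finset_sum _ fun c _ => ?_
  obtain ⟨t, ht, hst⟩ := h _ (hGm n c)
  refine am_iff.2 ⟨t.indicator fun _ => c, (@measurable_const _ _ _ 𝒟 c).indicator ht, ?_⟩
  filter_upwards [eventuallyEq_set.1 hst] with x hx
  by_cases hxt : x ∈ t
  · rw [Set.indicator_of_mem (hx.2 hxt), Set.indicator_of_mem hxt]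
  · rw [Set.indicator_of_notMem (fun h => hxt (hx.1 h)), Set.indicator_of_notMem hxt]

theorem lq_jo (h1 : LQ μ 𝒜 𝒟) (h2 : LQ μ ℬ 𝒟) : LQ μ (jo 𝒜 ℬ) 𝒟 := by
  intro f hf
  refine am_of_sets ?_ hf
  have : @LE.le (MeasurableSpace Ω) _ (jo 𝒜 ℬ) (@eventuallyMeasurableSpace Ω 𝒟 (ae μ) _) :=
    sup_le (α := MeasurableSpace Ω) (fun s hs => set_of_lq h1 hs) (fun s hs => set_of_lq h2 hs)
  exact fun s hs => this s hs

theorem lq_sg {Φ : Set (Ω → ℂ)} (h : ∀ φ ∈ Φ, AM μ 𝒟 φ) : LQ μ (sg Φ) 𝒟 := by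
  intro f hf
  refine am_of_sets ?_ hf
  have : @LE.le (MeasurableSpace Ω) _ (sg Φ) (@eventuallyMeasurableSpace Ω 𝒟 (ae μ) _) := by
    refine iSup₂_le fun φ hφ => ?_
    rintro s ⟨u, hu, rfl⟩
    obtain ⟨ψ, hψ, hφψ⟩ := am_iff.1 (h φ hφ)
    refine ⟨ψ ⁻¹' u, hψ hu, ?_⟩
    refine eventuallyEq_set.2 ?_
    filter_upwards [hφψ] with x hx
    simp [Set.mem_preimage, hx]
  exact fun s hs => this s hs

theorem am_bo : AM μ bo f ↔ ∃ c : ℂ, f =ᵐ[μ] fun _ => c := by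
  rw [am_iff]
  constructor
  · rintro ⟨g, hg, h⟩
    rcases isEmpty_or_nonempty Ω with hΩ | hΩ
    · exact ⟨0, Eventually.of_forall fun x => (hΩ.false x).elim⟩
    · have hc : ∃ c, g = fun _ => c := by
        refine ⟨g (Classical.arbitrary Ω), funext fun x => ?_⟩
        have hs : MeasurableSet[bo] (g ⁻¹' {g (Classical.arbitrary Ω)}) :=
          hg (measurableSet_singleton _)
        rcases MeasurableSpace.measurableSet_bot_iff.1 hs with h1 | h1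
        · have : Classical.arbitrary Ω ∈ (∅ : Set Ω) := by rw [← h1]; simp
          exact this.elim
        · have : x ∈ g ⁻¹' {g (Classical.arbitrary Ω)} := by rw [h1]; trivial
          exact this
      obtain ⟨c, rfl⟩ := hc
      exact ⟨c, h⟩
  · rintro ⟨c, h⟩
    exact ⟨fun _ => c, measurable_const, h⟩

/-! ### invariance -/

theorem Sys.symm (h : Sys μ R R') : Sys μ R' R := ⟨h.mp', h.mp, h.r, h.l⟩

theorem Sys.iterate (h : Sys μ R R') (n : ℕ) : Sys μ R^[n] R'^[n] := by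
  have key : ∀ {S S' : Ω → Ω}, Sys μ S S' → ∀ n : ℕ, ∀ᵐ x ∂μ, S'^[n] (S^[n] x) = x := by
    intro S S' hS n
    induction n with
    | zero => exact Eventually.of_forall fun x => rfl
    | succ n ih =>
      have h1 : ∀ᵐ x ∂μ, S'^[n] (S^[n] (S x)) = S x :=
        hS.mp.quasiMeasurePreserving.ae ih
      filter_upwards [hS.l, h1] with x hx hx1
      rw [Function.iterate_succ_apply', Function.iterate_succ_apply, hx1, hx]
  exact ⟨h.mp.iterate n, h.mp'.iterate n, key h n, key h.symm n⟩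

theorem ae_comp (h : MeasurePreserving R μ μ) {P : Ω → Prop} (hP : ∀ᵐ x ∂μ, P x) :
    ∀ᵐ x ∂μ, P (R x) := h.quasiMeasurePreserving.ae hP

theorem IA.symm (h : IA μ 𝒜 R R') : IA μ 𝒜 R' R := ⟨h.1, fun f hf => ⟨(h.2 f hf).2, (h.2 f hf).1⟩⟩

theorem IA.iterate (h : IA μ 𝒜 R R') (n : ℕ) : IA μ 𝒜 R^[n] R'^[n] := by
  have key : ∀ {S S' : Ω → Ω}, IA μ 𝒜 S S' → ∀ n : ℕ, ∀ f : Ω → ℂ, AM μ 𝒜 f →
      AM μ 𝒜 (fun x => f (S^[n] x)) := by
    intro S S' hS n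
    induction n with
    | zero => exact fun f hf => hf
    | succ n ih =>
      intro f hf
      have := ih _ (hS.2 f hf).1
      simpa only [Function.iterate_succ_apply'] using this
  exact ⟨h.1, fun f hf => ⟨key h n f hf, key h.symm n f hf⟩⟩

theorem am_comp_bo (hf : AM μ bo f) (hR : MeasurePreserving R μ μ) :
    AM μ bo (fun x => f (R x)) := by
  obtain ⟨c, h⟩ := am_bo.1 hf
  exact am_bo.2 ⟨c, hR.quasiMeasurePreserving.ae h⟩

theorem ia_bo (hR : Sys μ R R') : IA μ bo R R' :=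
  ⟨lm_bo, fun _ hf => ⟨am_comp_bo hf hR.mp, am_comp_bo hf hR.mp'⟩⟩

/-! ### unimodular functions and increments -/

theorem uf_one : UF μ (fun _ : Ω => (1 : ℂ)) := ⟨measurable_const, Eventually.of_forall fun _ => by simp⟩

theorem UF.mul (hf : UF μ f) (hg : UF μ g) : UF μ (fun x => f x * g x) := by
  refine ⟨hf.1.mul hg.1, ?_⟩
  filter_upwards [hf.2, hg.2] with x h1 h2
  rw [norm_mul, h1, h2, one_mul]

theorem UF.conj (hf : UF μ f) : UF μ (fun x => conj (f x)) := by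
  refine ⟨Complex.continuous_conj.measurable.comp hf.1, ?_⟩
  filter_upwards [hf.2] with x h1
  rw [RCLike.norm_conj, h1]

theorem UF.pow (hf : UF μ f) (n : ℕ) : UF μ (fun x => f x ^ n) := by
  refine ⟨hf.1.pow_const n, ?_⟩
  filter_upwards [hf.2] with x h1
  rw [norm_pow, h1, one_pow]

theorem UF.comp {Ω' : Type} [MeasurableSpace Ω'] {ν : Measure Ω'} {S : Ω' → Ω} (hf : UF μ f)
    (hS : MeasurePreserving S ν μ) : UF ν (fun x => f (S x)) :=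
  ⟨hf.1.comp hS.measurable, hS.quasiMeasurePreserving.ae hf.2⟩

/-- `ψ conj ψ = 1` -/
theorem UF.mul_conj (hf : UF μ f) : ∀ᵐ x ∂μ, f x * conj (f x) = 1 := by
  filter_upwards [hf.2] with x hx
  rw [Complex.mul_conj, Complex.normSq_eq_norm_sq, hx]
  simp

theorem UF.conj_mul (hf : UF μ f) : ∀ᵐ x ∂μ, conj (f x) * f x = 1 := by
  filter_upwards [hf.mul_conj] with x hx
  rw [mul_comm, hx]

/-- a measurable version of modulus one -/
theorem exists_uf {𝒜 : SA Ω} (hA : Lm 𝒜) (hf : AM μ 𝒜 f) (h1 : ∀ᵐ x ∂μ, ‖f x‖ = 1) :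
    ∃ g : Ω → ℂ, UF μ g ∧ (∀ x, ‖g x‖ = 1) ∧ Measurable[𝒜] g ∧ f =ᵐ[μ] g := by
  classical
  obtain ⟨g, hg, hfg⟩ := am_iff.1 hf
  let φ : ℂ → ℂ := fun z => if ‖z‖ = 1 then z else 1
  have hφ : Measurable φ :=
    Measurable.ite (measurableSet_eq_fun measurable_norm measurable_const) measurable_id
      measurable_const
  have h2 : ∀ z, ‖φ z‖ = 1 := by
    intro z
    by_cases hz : ‖z‖ = 1
    · simp only [φ, if_pos hz]; exact hz
    · simp only [φ, if_neg hz]; exact norm_one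
  have hm : Measurable[𝒜] (fun x => φ (g x)) := hφ.comp hg
  refine ⟨fun x => φ (g x), ⟨hm.mono hA le_rfl, Eventually.of_forall fun x => h2 _⟩,
    fun x => h2 _, hm, ?_⟩
  filter_upwards [hfg, h1] with x hx h1x
  rw [hx] at h1x
  simp only [φ, if_pos h1x]
  exact hx

theorem inc_one : Inc μ 𝒜 R (fun _ => (1 : ℂ)) := by
  unfold Inc
  simpa using am_const (μ := μ) (𝒜 := 𝒜) 1

theorem Inc.mul (hf : Inc μ 𝒜 R f) (hg : Inc μ 𝒜 R g) : Inc μ 𝒜 R (fun x => f x * g x) := by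
  refine am_congr (am_mul hf hg) (Eventually.of_forall fun x => ?_)
  simp only [map_mul]
  ring

theorem Inc.conj (hf : Inc μ 𝒜 R f) : Inc μ 𝒜 R (fun x => conj (f x)) := by
  refine am_congr (am_conj hf) (Eventually.of_forall fun x => ?_)
  simp

theorem Inc.pow (hf : Inc μ 𝒜 R f) (n : ℕ) : Inc μ 𝒜 R (fun x => f x ^ n) := by
  refine am_congr (am_pow hf n) (Eventually.of_forall fun x => ?_)
  simp only [map_pow]
  ring

theorem Inc.lq (h : LQ μ 𝒜 ℬ) (hf : Inc μ 𝒜 R f) : Inc μ ℬ R f := h _ hf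

theorem inc_of_am (hA : IA μ 𝒜 R R') (hf : AM μ 𝒜 f) : Inc μ 𝒜 R f :=
  am_mul (hA.2 f hf).1 (am_conj hf)

theorem Inc.congr (hR : MeasurePreserving R μ μ) (hf : Inc μ 𝒜 R f) (h : f =ᵐ[μ] g) :
    Inc μ 𝒜 R g := by
  refine am_congr hf ?_
  filter_upwards [h, hR.quasiMeasurePreserving.ae h] with x h1 h2
  rw [h1, h2]

end basic

end Pool.Agent.Helper98.TW
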