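import Pool.Agent.Helper98.TW.Defs

/-!
Statements of the modules of the sheet TW (MP_7a8f48_an).
-/

open MeasureTheory Filter Topology Finset
open scoped ComplexConjugate

namespace Pool.Agent.Helper98.TW

open Pool.Agent.Helper16.AZ (T mm)

/-! ### Block G: general ergodic systems -/

/-- CEC: conditional expectations commute with the system. -/
def ST_CEC : Prop := ∀ (Ω : Type) [MeasurableSpace Ω] (μ : Measure Ω) [IsProbabilityMeasure μ]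
  (R R' : Ω → Ω) (𝒜 : SA Ω) (F : Ω → ℂ), Sys μ R R' → IA μ 𝒜 R R' → Integrable F μ →
  μ[fun x => F (R x)|𝒜] =ᵐ[μ] fun x => (μ[F|𝒜]) (R x)

/-- LZ: the zero one law for increments. -/
def ST_LZ : Prop := ∀ (Ω : Type) [MeasurableSpace Ω] (μ : Measure Ω) [IsProbabilityMeasure μ]
  (R R' : Ω → Ω) (𝒜 : SA Ω) (ψ : Ω → ℂ), Sys μ R R' → Ergodic R μ → IA μ 𝒜 R R' → UF μ ψ →
  Inc μ 𝒜 R ψ → μ[ψ|𝒜] =ᵐ[μ] 0 ∨ AM μ 𝒜 ψ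

/-- DNS: density of the products of `𝒜`-measurable functions and elements of `Φ`. -/
def ST_DNS : Prop := ∀ (Ω : Type) [MeasurableSpace Ω] (μ : Measure Ω) [IsProbabilityMeasure μ]
  (𝒜 : SA Ω) (Φ : Set (Ω → ℂ)) (F : Ω → ℂ), Lm 𝒜 → Grp μ Φ → Integrable F μ →
  AM μ (jo 𝒜 (sg Φ)) F → (∀ φ ∈ Φ, μ[fun x => F x * conj (φ x)|𝒜] =ᵐ[μ] 0) → F =ᵐ[μ] 0

/-- IAJ: joins of invariant sigma algebras. -/
def ST_IAJ : Prop := ∀ (Ω : Type) [MeasurableSpace Ω] (μ : Measure Ω) [IsProbabilityMeasure μ]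
  (R R' : Ω → Ω), Sys μ R R' →
  (∀ 𝒜 ℬ : SA Ω, IA μ 𝒜 R R' → IA μ ℬ R R' → IA μ (jo 𝒜 ℬ) R R') ∧
  ∀ (𝒜 : SA Ω) (Φ : Set (Ω → ℂ)), IA μ 𝒜 R R' → Grp μ Φ → (∀ φ ∈ Φ, Inc μ 𝒜 R φ) →
    IA μ (jo 𝒜 (sg Φ)) R R'

/-- LT: unimodular functions of `𝒜 ∨ Φ` with increments in `𝒜` belong to `Φ U(𝒜)`. -/
def ST_LT : Prop := ∀ (Ω : Type) [MeasurableSpace Ω] (μ : Measure Ω) [IsProbabilityMeasure μ]
  (R R' : Ω → Ω) (𝒜 : SA Ω) (Φ : Set (Ω → ℂ)) (ψ : Ω → ℂ), Sys μ R R' → Ergodic R μ →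
  IA μ 𝒜 R R' → Grp μ Φ → (∀ φ ∈ Φ, Inc μ 𝒜 R φ) → UF μ ψ → AM μ (jo 𝒜 (sg Φ)) ψ →
  Inc μ 𝒜 R ψ → ∃ φ ∈ Φ, AM μ 𝒜 (fun x => ψ x * conj (φ x))

/-- TCA: continuity of measure preserving torus actions in `L²`. -/
def ST_TCA : Prop := ∀ (Y : Type) [TopologicalSpace Y] [CompactSpace Y]
  [TopologicalSpace.MetrizableSpace Y] [MeasurableSpace Y] [BorelSpace Y] (μ : Measure Y)
  [IsProbabilityMeasure μ] (d : ℕ) (V : T d → Y → Y) (F : Y → ℂ), Act μ V →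
  Continuous (fun z : T d × Y => V z.1 z.2) → MemLp F 2 μ →
  Tendsto (fun t : T d => ∫ y, ‖F (V t y) - F y‖ ^ 2 ∂μ) (𝓝 0) (𝓝 0)

/-- CT: the connectedness trick. -/
def ST_CT : Prop := ∀ (Ω : Type) [MeasurableSpace Ω] (μ : Measure Ω) [IsProbabilityMeasure μ]
  (R R' : Ω → Ω) (𝒟 : SA Ω) (d : ℕ) (V : T d → Ω → Ω) (ψ : Ω → ℂ), Sys μ R R' → Ergodic R μ →
  IA μ 𝒟 R R' → Act μ V → (∀ t, IA μ 𝒟 (V t) (V (-t))) → UF μ ψ →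
  (∀ t, Inc μ 𝒟 R (fun x => ψ (V t x) * conj (ψ x))) →
  Tendsto (fun t : T d => ∫ x, ‖ψ (V t x) - ψ x‖ ^ 2 ∂μ) (𝓝 0) (𝓝 0) →
  ∀ t, AM μ 𝒟 (fun x => ψ (V t x) * conj (ψ x))

/-- GL: gluing. -/
def ST_GL : Prop := ∀ (Ω : Type) [MeasurableSpace Ω] (μ : Measure Ω) [IsProbabilityMeasure μ]
  (𝒟 : SA Ω) (d : ℕ) (V : T d → Ω → Ω) (Φ : Set (Ω → ℂ)) (ψ : Ω → ℂ), Lm 𝒟 → Act μ V →
  (∀ t, IA μ 𝒟 (V t) (V (-t))) → Grp μ Φ → Φ.Countable →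
  (∀ φ ∈ Φ, ∀ t, ∀ᵐ x ∂μ, φ (V t x) = φ x) → UF μ ψ → AM μ (jo 𝒟 (sg Φ)) ψ →
  (∀ t, AM μ 𝒟 (fun x => ψ (V t x) * conj (ψ x))) →
  ∃ w : Ω → ℂ, UF μ w ∧ AM μ 𝒟 w ∧
    ∀ t, ∀ᵐ x ∂μ, ψ (V t x) * conj (w (V t x)) = ψ x * conj (w x)

/-- PFC: conditional expectations and sigma algebras under measure preserving maps. -/
def ST_PFC : Prop := ∀ (Ω Ω' : Type) [MeasurableSpace Ω] [MeasurableSpace Ω'] (μ : Measure Ω)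
  [IsProbabilityMeasure μ] (μ' : Measure Ω') [IsProbabilityMeasure μ'] (π : Ω → Ω') (𝒜 : SA Ω'),
  MeasurePreserving π μ μ' → Lm 𝒜 →
  (∀ F : Ω' → ℂ, Integrable F μ' →
    μ[fun x => F (π x)|cm π 𝒜] =ᵐ[μ] fun x => (μ'[F|𝒜]) (π x)) ∧
  (∀ F : Ω' → ℂ, AEStronglyMeasurable F μ' → (AM μ (cm π 𝒜) (fun x => F (π x)) ↔ AM μ' 𝒜 F)) ∧
  ∀ G : Ω → ℂ, AM μ (cm π 𝒜) G → ∃ F : Ω' → ℂ, Measurable F ∧ AM μ' 𝒜 F ∧
    G =ᵐ[μ] fun x => F (π x)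

/-! ### Block X: the torus -/

/-- INV: the inverse of a tower is a tower. -/
def ST_INV : Prop := ∀ (N : ℕ) (lev : Fin N → ℕ) (f : Fin N → T N → U), Tow lev f →
  ∃ f', TI lev f f'

/-- MPS: towers preserve the measure; systems of powers. -/
def ST_MPS : Prop := ∀ (N : ℕ) (lev : Fin N → ℕ) (f f' : Fin N → T N → U), TI lev f f' →
  ∀ m : ℕ, Sys (mm N) (SS f)^[m] (SS f')^[m]

/-- IAL: the sigma algebras of the levels are invariant. -/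
def ST_IAL : Prop := ∀ (N : ℕ) (lev : Fin N → ℕ) (f f' : Fin N → T N → U), TI lev f f' →
  ∀ l m : ℕ, IA (mm N) (AL lev l) (SS f)^[m] (SS f')^[m]

/-- ALS: the sigma algebras are generated by characters. -/
def ST_ALS : Prop := ∀ (N : ℕ) (lev : Fin N → ℕ), AL lev 0 = bo ∧
  (∀ l, AL lev (l + 1) = jo (AL lev l) (sg (CH lev l))) ∧ (∀ l, Lm (AL lev l)) ∧
  (∀ l l' : ℕ, l ≤ l' → LQ (mm N) (AL lev l) (AL lev l')) ∧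
  (∀ l, (∀ i, lev i < l) → AL lev l = (inferInstance : MeasurableSpace (T N))) ∧
  (∀ l, Grp (mm N) (CH lev l)) ∧
  ∀ l l' a, l < l' → la lev l a → AM (mm N) (AL lev l') (ex a)

/-- TRV: functions which are invariant under the translations of the top level. -/
def ST_TRV : Prop := ∀ (N : ℕ) (lev : Fin N → ℕ) (l : ℕ) (F : T N → ℂ), Integrable F (mm N) →
  AM (mm N) (AL lev (l + 1)) F → (∀ t, ∀ᵐ x ∂(mm N), F (x + pk lev l t) = F x) →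
  AM (mm N) (AL lev l) F

/-- CHZ: a nontrivial character of level `l` is orthogonal to the levels below. -/
def ST_CHZ : Prop := ∀ (N : ℕ) (lev : Fin N → ℕ) (l : ℕ) (a : Fin N → ℤ), a ≠ 0 → la lev l a →
  ∀ F : T N → ℂ, Integrable F (mm N) → AM (mm N) (AL lev l) F →
    (mm N)[fun x => ex a x * F x|AL lev l] =ᵐ[mm N] 0

/-- NEC: from `NE` to unimodular functions. -/
def ST_NEC : Prop := ∀ (N : ℕ) (lev : Fin N → ℕ) (f : Fin N → T N → U), Tow lev f →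
  NE lev f → NU lev f 1

/-- EIG: ergodicity and eigenfunctions. -/
def ST_EIG : Prop := ∀ (N : ℕ) (lev : Fin N → ℕ) (f f' : Fin N → T N → U), TI lev f f' →
  MR lev f → NU lev f 1 → EG lev f 1

/-- ERP: the same for all powers. -/
def ST_ERP : Prop := ∀ (N : ℕ) (lev : Fin N → ℕ) (f f' : Fin N → T N → U), TI lev f f' →
  MR lev f → EG lev f 1 → ∀ m : ℕ, 1 ≤ m → EG lev f m

/-- POW: `NU` for all powers. -/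
def ST_POW : Prop := ∀ (N : ℕ) (lev : Fin N → ℕ) (f f' : Fin N → T N → U), TI lev f f' →
  MR lev f → NU lev f 1 → (∀ m : ℕ, 1 ≤ m → EG lev f m) → ∀ m : ℕ, 1 ≤ m → NU lev f m

/-! ### Block J: joinings -/

/-- TRM: truncated joinings. -/
def ST_TRM : Prop := ∀ (N : ℕ) (lev : Fin N → ℕ) (f f' : Fin N → T N → U) (p q : ℕ)
  (κ : Measure (T N × T N)), TI lev f f' → JN f p q κ → ∀ l j : ℕ,
  IsProbabilityMeasure (κ.map (trp lev l j)) ∧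
  Sys (κ.map (trp lev l j))
    (fun z => trp lev l j (Prod.map (SS f)^[p] (SS f)^[q] z))
    (fun z => trp lev l j (Prod.map (SS f')^[p] (SS f')^[q] z)) ∧
  Ergodic (fun z => trp lev l j (Prod.map (SS f)^[p] (SS f)^[q] z)) (κ.map (trp lev l j)) ∧
  Sys κ (Prod.map (SS f)^[p] (SS f)^[q]) (Prod.map (SS f')^[p] (SS f')^[q]) ∧
  IA κ (jo (A1 lev l) (B1 lev j)) (Prod.map (SS f)^[p] (SS f)^[q])
    (Prod.map (SS f')^[p] (SS f')^[q]) ∧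
  jo (A1 lev l) (B1 lev j) = cm (trp lev l j) (inferInstance : MeasurableSpace (T N × T N))

/-- VIN: invariance under the translations of a free level. -/
def ST_VIN : Prop := ∀ (N : ℕ) (lev : Fin N → ℕ) (f f' : Fin N → T N → U) (p q : ℕ)
  (κ : Measure (T N × T N)), TI lev f f' → JN f p q κ → ∀ k j : ℕ,
  (∀ d, d ≠ 0 → la lev k d → ¬ AM κ (jo (A1 lev k) (B1 lev j)) (fun z => ex d z.1)) →
  Act (κ.map (trp lev (k + 1) j)) (Vp lev k)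

/-- PST: the main step for the independence of the levels. -/
def ST_PST : Prop := ∀ (N : ℕ) (lev : Fin N → ℕ) (f f' : Fin N → T N → U) (p q : ℕ)
  (κ : Measure (T N × T N)), TI lev f f' → JN f p q κ → 1 ≤ p → 1 ≤ q →
  ∀ (k j : ℕ) (a : Fin N → ℤ), Act (κ.map (trp lev (k + 1) j)) (Vp lev k) →
  la lev (k + 1) a → ∀ (ψ : T N × T N → ℂ) (w : T N → ℂ), UF (κ.map (trp lev (k + 1) j)) ψ →
  Measurable w →
  (∀ᵐ z ∂(κ.map (trp lev (k + 1) j)),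
    ψ (trp lev (k + 1) j (Prod.map (SS f)^[p] (SS f)^[q] z)) * conj (ψ z) =
      ex a ((SS f)^[p] z.1) * conj (ex a z.1) * w z.2) →
  ∃ g : T N → ℂ, UF (mm N) g ∧ AM (mm N) (AL lev (k + 1)) g ∧
    Inc (mm N) (AL lev k) (SS f)^[p] (fun x => ex a x * g x)

/-- PLJ: no crossing. -/
def ST_PLJ : Prop := ∀ (N : ℕ) (lev : Fin N → ℕ) (f f' : Fin N → T N → U) (p q : ℕ)
  (κ : Measure (T N × T N)), TI lev f f' → MR lev f → (∀ m : ℕ, 1 ≤ m → EG lev f m) →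
  (∀ m : ℕ, 1 ≤ m → NU lev f m) → 1 ≤ p → 1 ≤ q → JN f p q κ →
  ∀ (l : ℕ) (a : Fin N → ℤ), a ≠ 0 → la lev l a → ∀ j ≤ l,
    ¬ AM κ (jo (A1 lev l) (B1 lev j)) (fun z => ex a z.1)

/-- JSW: exchange of the two coordinates. -/
def ST_JSW : Prop := ∀ (N : ℕ) (f : Fin N → T N → U) (p q : ℕ) (κ : Measure (T N × T N)),
  JN f p q κ → JN f q p (κ.map Prod.swap) ∧ ∀ (lev : Fin N → ℕ) (l j : ℕ) (F : T N × T N → ℂ),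
    AM (κ.map Prod.swap) (jo (A1 lev l) (B1 lev j)) F ↔
      AM κ (jo (A1 lev j) (B1 lev l)) (fun z => F z.swap)

/-- JG1: functions of the levels `< l` see only the levels `< l` of the second coordinate. -/
def ST_JG1 : Prop := ∀ (N : ℕ) (lev : Fin N → ℕ) (f f' : Fin N → T N → U) (p q : ℕ)
  (κ : Measure (T N × T N)), TI lev f f' → JN f p q κ →
  (∀ (l : ℕ) (a : Fin N → ℤ), a ≠ 0 → la lev l a → ∀ j ≤ l,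
    ¬ AM κ (jo (A1 lev j) (B1 lev l)) (fun z => ex a z.2)) →
  ∀ (l : ℕ) (F : T N → ℂ), BF F → AM (mm N) (AL lev l) F →
    κ[fun z => F z.1|BB N] =ᵐ[κ] κ[fun z => F z.1|B1 lev l]

/-- JG2: gradedness. -/
def ST_JG2 : Prop := ∀ (N : ℕ) (lev : Fin N → ℕ) (f f' : Fin N → T N → U) (p q : ℕ)
  (κ : Measure (T N × T N)), TI lev f f' → MR lev f → (∀ m : ℕ, 1 ≤ m → EG lev f m) →
  (∀ m : ℕ, 1 ≤ m → NU lev f m) → 1 ≤ p → 1 ≤ q → JN f p q κ →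
  ∀ (l : ℕ) (a a' : Fin N → ℤ), la lev l a → la lev l a' → a ≠ a' → ∀ F F' : T N → ℂ,
    BF F → BF F' → AM (mm N) (AL lev l) F → AM (mm N) (AL lev l) F' →
    ∫ z, (κ[fun z => ex a z.1 * F z.1|BB N]) z *
      conj ((κ[fun z => ex a' z.1 * F' z.1|BB N]) z) ∂κ = 0

/-- JD0: the visible characters of level `0`. -/
def ST_JD0 : Prop := ∀ (N : ℕ) (lev : Fin N → ℕ) (f f' : Fin N → T N → U) (p q : ℕ)
  (κ : Measure (T N × T N)), TI lev f f' → MR lev f → (∀ m : ℕ, 1 ≤ m → EG lev f m) →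
  p.Prime → q.Prime → p ≠ q → JN f p q κ → ∀ k, la lev 0 k →
    ¬ κ[fun z => ex k z.1|BB N] =ᵐ[κ] 0 → ∀ i, (q : ℤ) ∣ k i

/-! ### Block H: the hull -/

/-- H00: the start. -/
def ST_H00 : Prop := ∀ (N : ℕ) (lev : Fin N → ℕ) (f f' : Fin N → T N → U) (p q : ℕ)
  (κ : Measure (T N × T N)), TI lev f f' → JN f p q κ → HP lev f f' p q κ bo 0

/-- HAA: visible functions of character `0`. -/
def ST_HAA : Prop := ∀ (N : ℕ) (lev : Fin N → ℕ) (f f' : Fin N → T N → U) (p q : ℕ)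
  (κ : Measure (T N × T N)) (C : SA (T N)) (l : ℕ), TI lev f f' → HP lev f f' p q κ C l →
  Grp (mm N) (VS lev f p q κ C l) ∧
  ∀ ψ ∈ VS lev f p q κ C l, AM (mm N) (AL lev l) ψ → AM (mm N) C ψ

/-- HSI: elements of `PP` have increments in `C` for `S` itself. -/
def ST_HSI : Prop := ∀ (N : ℕ) (lev : Fin N → ℕ) (f f' : Fin N → T N → U) (p q : ℕ)
  (κ : Measure (T N × T N)) (C : SA (T N)) (l : ℕ), TI lev f f' → p.Prime → q.Prime → p ≠ q →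
  HP lev f f' p q κ C l → ∀ ψ ∈ PP lev f p C l, Inc (mm N) C (SS f) ψ

/-- HIA: the next hull is invariant. -/
def ST_HIA : Prop := ∀ (N : ℕ) (lev : Fin N → ℕ) (f f' : Fin N → T N → U) (p q : ℕ)
  (κ : Measure (T N × T N)) (C : SA (T N)) (l : ℕ), TI lev f f' → p.Prime → q.Prime → p ≠ q →
  HP lev f f' p q κ C l →
  IA (mm N) (jo C (sg (VS lev f p q κ C l))) (SS f) (SS f') ∧
  LQ (mm N) (jo C (sg (VS lev f p q κ C l))) (AL lev (l + 1)) ∧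
  ∀ t, IA (mm N) (jo C (sg (VS lev f p q κ C l))) (fun x => x + pk lev l t)
    (fun x => x + pk lev l (-t))

/-- HHO: homogeneous representatives. -/
def ST_HHO : Prop := ∀ (N : ℕ) (lev : Fin N → ℕ) (f f' : Fin N → T N → U) (p q : ℕ)
  (κ : Measure (T N × T N)) (C : SA (T N)) (l : ℕ), TI lev f f' → MR lev f →
  (∀ m : ℕ, 1 ≤ m → EG lev f m) → p.Prime → q.Prime → p ≠ q → HP lev f f' p q κ C l →
  ∀ ψ, UF (mm N) ψ → AM (mm N) (AL lev (l + 1)) ψ →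
    Inc (mm N) (jo C (sg (VS lev f p q κ C l))) (SS f)^[p] ψ →
    ∃ w φ : T N → ℂ, UF (mm N) w ∧ AM (mm N) (jo C (sg (VS lev f p q κ C l))) w ∧
      φ ∈ PP lev f p C l ∧ ψ =ᵐ[mm N] fun x => w x * φ x

/-- HNB: property (b) of the next hull. -/
def ST_HNB : Prop := ∀ (N : ℕ) (lev : Fin N → ℕ) (f f' : Fin N → T N → U) (p q : ℕ)
  (κ : Measure (T N × T N)) (C : SA (T N)) (l : ℕ), TI lev f f' → MR lev f →
  (∀ m : ℕ, 1 ≤ m → EG lev f m) → JN f p q κ → p.Prime → q.Prime → p ≠ q →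
  HP lev f f' p q κ C l → ∀ ψ, UF (mm N) ψ → AM (mm N) (AL lev (l + 1)) ψ →
    Inc (mm N) (jo C (sg (VS lev f p q κ C l))) (SS f)^[p] ψ →
    Vis κ (jo C (sg (VS lev f p q κ C l))) ψ → AM (mm N) (jo C (sg (VS lev f p q κ C l))) ψ

/-- HNC: property (c) of the next hull. -/
def ST_HNC : Prop := ∀ (N : ℕ) (lev : Fin N → ℕ) (f f' : Fin N → T N → U) (p q : ℕ)
  (κ : Measure (T N × T N)) (C : SA (T N)) (l : ℕ), TI lev f f' → MR lev f →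
  (∀ m : ℕ, 1 ≤ m → EG lev f m) → JN f p q κ → p.Prime → q.Prime → p ≠ q →
  HP lev f f' p q κ C l → ∀ ψ, UF (mm N) ψ → AM (mm N) (AL lev (l + 1)) ψ →
    Inc (mm N) (jo C (sg (VS lev f p q κ C l))) (SS f)^[p] ψ →
    ∀ M : ℕ, 1 ≤ M → Nat.Coprime M q →
      AM (mm N) (jo C (sg (VS lev f p q κ C l))) (fun x => ψ x ^ M) →
      AM (mm N) (jo C (sg (VS lev f p q κ C l))) ψ

/-- HNS: property (s) of the next hull. -/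
def ST_HNS : Prop := ∀ (N : ℕ) (lev : Fin N → ℕ) (f f' : Fin N → T N → U) (p q : ℕ)
  (κ : Measure (T N × T N)) (C : SA (T N)) (l : ℕ), TI lev f f' → MR lev f →
  (∀ m : ℕ, 1 ≤ m → EG lev f m) → JN f p q κ → p.Prime → q.Prime → p ≠ q →
  HP lev f f' p q κ C l → ∀ ψ, UF (mm N) ψ → AM (mm N) (AL lev (l + 1)) ψ →
    Inc (mm N) (jo C (sg (VS lev f p q κ C l))) (SS f)^[p] ψ →
    Inc (mm N) (jo C (sg (VS lev f p q κ C l))) (SS f) ψ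

/-- HDV: divisibility on level `0`. -/
def ST_HDV : Prop := ∀ (N : ℕ) (lev : Fin N → ℕ) (f f' : Fin N → T N → U) (p q : ℕ)
  (κ : Measure (T N × T N)), TI lev f f' → MR lev f → (∀ m : ℕ, 1 ≤ m → EG lev f m) →
  p.Prime → q.Prime → p ≠ q → JN f p q κ → ∀ ψ ∈ VS lev f p q κ bo 0, ∀ k, la lev 0 k →
    AM (mm N) (AL lev 0) (fun x => conj (ex k x) * ψ x) → ∀ i, (q : ℤ) ∣ k i

/-! ### Block M: modules -/

/-- FRE: frames exist. -/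
def ST_FRE : Prop := ∀ (Ω : Type) [MeasurableSpace Ω] (μ : Measure Ω) [IsProbabilityMeasure μ]
  (V : Type) [NormedAddCommGroup V] [InnerProductSpace ℂ V] [FiniteDimensional ℂ V]
  (R R' : Ω → Ω) (θ : Ω → V →L[ℂ] V) (C : SA Ω) (E : Submodule ℂ (Lp V 2 μ)) (n : ℕ),
  Sys μ R R' → Ergodic R μ → IA μ C R R' → AEStronglyMeasurable θ μ →
  (∀ x v, ‖θ x v‖ = ‖v‖) → CM μ C R θ E → E ≠ ⊥ → Rk μ C E n →
  ∃ (m : ℕ) (e : Fin m → Lp V 2 μ), 1 ≤ m ∧ m ≤ n ∧ (∀ a, e a ∈ E) ∧ ON μ C e ∧ Rk μ C E m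

/-- FRP: maximal orthonormal families are frames. -/
def ST_FRP : Prop := ∀ (Ω : Type) [MeasurableSpace Ω] (μ : Measure Ω) [IsProbabilityMeasure μ]
  (V : Type) [NormedAddCommGroup V] [InnerProductSpace ℂ V] [FiniteDimensional ℂ V]
  (R R' : Ω → Ω) (θ : Ω → V →L[ℂ] V) (C : SA Ω) (E : Submodule ℂ (Lp V 2 μ)) (m : ℕ)
  (e : Fin m → Lp V 2 μ), Sys μ R R' → Ergodic R μ → IA μ C R R' → AEStronglyMeasurable θ μ →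
  (∀ x v, ‖θ x v‖ = ‖v‖) → CM μ C R θ E → (∀ a, e a ∈ E) → ON μ C e → Rk μ C E m →
  ∃ ρ : Ω → Matrix (Fin m) (Fin m) ℂ, Fr μ C R θ E e ρ

/-- MIN: modules of finite rank contain minimal ones. -/
def ST_MIN : Prop := ∀ (Ω : Type) [MeasurableSpace Ω] (μ : Measure Ω) [IsProbabilityMeasure μ]
  (V : Type) [NormedAddCommGroup V] [InnerProductSpace ℂ V] [FiniteDimensional ℂ V]
  (R R' : Ω → Ω) (θ : Ω → V →L[ℂ] V) (C : SA Ω) (E : Submodule ℂ (Lp V 2 μ)) (n : ℕ),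
  Sys μ R R' → Ergodic R μ → IA μ C R R' → AEStronglyMeasurable θ μ →
  (∀ x v, ‖θ x v‖ = ‖v‖) → CM μ C R θ E → E ≠ ⊥ → Rk μ C E n →
  ∃ (E' : Submodule ℂ (Lp V 2 μ)) (m : ℕ) (e : Fin m → Lp V 2 μ)
    (ρ : Ω → Matrix (Fin m) (Fin m) ℂ), E' ≤ E ∧ Mi μ C R θ E' ∧ 1 ≤ m ∧ m ≤ n ∧
    Rk μ C E' m ∧ Fr μ C R θ E' e ρ

/-- SCL: on minimal modules the equivariant matrices over `C` are scalar. -/
def ST_SCL : Prop := ∀ (Ω : Type) [MeasurableSpace Ω] (μ : Measure Ω) [IsProbabilityMeasure μ]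
  (V : Type) [NormedAddCommGroup V] [InnerProductSpace ℂ V] [FiniteDimensional ℂ V]
  (R R' : Ω → Ω) (θ : Ω → V →L[ℂ] V) (C : SA Ω) (E : Submodule ℂ (Lp V 2 μ)) (m : ℕ)
  (e : Fin m → Lp V 2 μ) (ρ : Ω → Matrix (Fin m) (Fin m) ℂ), Sys μ R R' → Ergodic R μ →
  IA μ C R R' → Mi μ C R θ E → Fr μ C R θ E e ρ →
  ∀ B : Ω → Matrix (Fin m) (Fin m) ℂ, (∀ a b, AM μ C (fun x => B x a b)) →
  (∀ᵐ x ∂μ, (B x).IsHermitian) →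
  (∀ᵐ x ∂μ, B (R x) = ρ x * B x * (ρ x).conjTranspose) →
  ∃ c : ℝ, ∀ᵐ x ∂μ, B x = (c : ℂ) • 1

/-- TWS: self-twists of small order. -/
def ST_TWS : Prop := ∀ (Ω : Type) [MeasurableSpace Ω] (μ : Measure Ω) [IsProbabilityMeasure μ]
  (R R' : Ω → Ω) (C : SA Ω) (m : ℕ) (ρ W : Ω → Matrix (Fin m) (Fin m) ℂ) (ψ : Ω → ℂ),
  Sys μ R R' → Ergodic R μ → IA μ C R R' → 1 ≤ m → (∀ a b, AM μ C (fun x => ρ x a b)) →
  (∀ᵐ x ∂μ, ρ x ∈ Matrix.unitaryGroup (Fin m) ℂ) → (∀ a b, AM μ C (fun x => W x a b)) →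
  (∀ᵐ x ∂μ, W x ∈ Matrix.unitaryGroup (Fin m) ℂ) → UF μ ψ → Inc μ C R ψ →
  (∀ᵐ x ∂μ, W (R x) = (ψ (R x) * conj (ψ x)) • (ρ x * W x * (ρ x).conjTranspose)) →
  ∃ M : ℕ, 1 ≤ M ∧ M ≤ m ^ 2 ∧ AM μ C (fun x => ψ x ^ M)

/-- SPN: modules which are generated by finitely many bounded functions. -/
def ST_SPN : Prop := ∀ (Ω : Type) [MeasurableSpace Ω] (μ : Measure Ω) [IsProbabilityMeasure μ]
  (R R' : Ω → Ω) (C : SA Ω) (k : ℕ) (w : Fin k → Lp ℂ 2 μ) (c : Fin k → Fin k → Ω → ℂ),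
  Sys μ R R' → IA μ C R R' → (∃ B : ℝ, ∀ i, ∀ᵐ x ∂μ, ‖w i x‖ ≤ B) →
  (∃ B : ℝ, ∀ i j, ∀ᵐ x ∂μ, ‖c i j x‖ ≤ B) → (∀ i j, AM μ C (c i j)) →
  (∀ i, ∀ᵐ x ∂μ, w i (R x) = ∑ j, c i j x * w j x) →
  ∃ E : Submodule ℂ (Lp ℂ 2 μ), CM μ C R (fun _ => 1) E ∧ (∀ i, w i ∈ E) ∧ Rk μ C E k ∧
    ∀ E' : Submodule ℂ (Lp ℂ 2 μ), C0 μ C E' → (∀ i, w i ∈ E') → E ≤ E'

/-- SM0: the start of the induction. -/
def ST_SM0 : Prop := ∀ (Ω : Type) [MeasurableSpace Ω] (μ : Measure Ω) [IsProbabilityMeasure μ]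
  (R R' : Ω → Ω) (C : SA Ω) (n : ℕ), Sys μ R R' → Ergodic R μ → IA μ C R R' → SM μ C C R n

/-- SST: one step. -/
def ST_SST : Prop := ∀ (Ω : Type) [MeasurableSpace Ω] (μ : Measure Ω) [IsProbabilityMeasure μ]
  (R R' : Ω → Ω) (C 𝒜 : SA Ω) (Φ : Set (Ω → ℂ)) (n : ℕ), Sys μ R R' → Ergodic R μ →
  IA μ C R R' → IA μ 𝒜 R R' → LQ μ C 𝒜 → Grp μ Φ → (∀ φ ∈ Φ, Inc μ 𝒜 R φ) →
  Sat μ C (jo 𝒜 (sg Φ)) R (n ^ 2) → SM μ C 𝒜 R (n ^ 2) → SM μ C (jo 𝒜 (sg Φ)) R n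

/-- SRK: modules of small rank over the hull. -/
def ST_SRK : Prop := ∀ (N : ℕ) (lev : Fin N → ℕ) (f f' : Fin N → T N → U) (p q : ℕ)
  (κ : Measure (T N × T N)) (C : SA (T N)) (l n : ℕ), TI lev f f' →
  (∀ m : ℕ, 1 ≤ m → EG lev f m) → 1 ≤ p → q.Prime → HP lev f f' p q κ C l → 1 ≤ n →
  n ^ 2 ^ l < q → SM (mm N) C (AL lev l) (SS f)^[p] n

/-- PSI: the operator of a function. -/
def ST_PSI : Prop := ∀ (Ω : Type) [MeasurableSpace Ω] (μ : Measure Ω) [IsProbabilityMeasure μ]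
  (V : Type) [NormedAddCommGroup V] [InnerProductSpace ℂ V] [FiniteDimensional ℂ V]
  (R R' : Ω → Ω) (θ : Ω → V →L[ℂ] V) (C : SA Ω) (F : Ω → V) (B : ℝ),
  Sys μ R R' → Ergodic R μ → IA μ C R R' → AEStronglyMeasurable θ μ →
  (∀ x v, ‖θ x v‖ = ‖v‖) → AEStronglyMeasurable F μ → (∀ x, ‖F x‖ ≤ B) →
  ∃ Ψ : Lp V 2 μ →L[ℂ] Lp V 2 μ, IsSelfAdjoint Ψ ∧ (∀ G, 0 ≤ RCLike.re (inner ℂ (Ψ G) G : ℂ)) ∧
    (∀ (c : Ω → ℂ) (G G' : Lp V 2 μ), AM μ C c → (∃ B : ℝ, ∀ᵐ x ∂μ, ‖c x‖ ≤ B) →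
      (∀ᵐ x ∂μ, G' x = c x • G x) → ∀ᵐ x ∂μ, (Ψ G') x = c x • (Ψ G) x) ∧
    (∀ G G' : Lp V 2 μ, (∀ᵐ x ∂μ, G' x = θ x (G (R x))) →
      ∀ᵐ x ∂μ, (Ψ G') x = θ x ((Ψ G) (R x))) ∧
    (∀ F' : Lp V 2 μ, F' =ᵐ[μ] F → limsup (fun H => al μ C R θ F H) atTop =
      RCLike.re (inner ℂ (Ψ F') F' : ℂ)) ∧
    (∀ (m : ℕ) (e : Fin m → Lp V 2 μ), ON μ C e →
      ∑ a, RCLike.re (inner ℂ (Ψ (e a)) (e a) : ℂ) ≤ ∫ x, ‖F x‖ ^ 2 ∂μ) ∧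
    ∀ E : Submodule ℂ (Lp V 2 μ), CM μ C R θ E → (∀ F' : Lp V 2 μ, F' =ᵐ[μ] F → F' ∈ E) →
      ∀ G, Ψ G ∈ E

/-- PSE: the part of the operator above `s`. -/
def ST_PSE : Prop := ∀ (Ω : Type) [MeasurableSpace Ω] (μ : Measure Ω) [IsProbabilityMeasure μ]
  (V : Type) [NormedAddCommGroup V] [InnerProductSpace ℂ V] [FiniteDimensional ℂ V]
  (R R' : Ω → Ω) (θ : Ω → V →L[ℂ] V) (C : SA Ω) (Ψ : Lp V 2 μ →L[ℂ] Lp V 2 μ) (A s : ℝ),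
  Sys μ R R' → Ergodic R μ → IA μ C R R' → AEStronglyMeasurable θ μ →
  (∀ x v, ‖θ x v‖ = ‖v‖) → IsSelfAdjoint Ψ → (∀ G, 0 ≤ RCLike.re (inner ℂ (Ψ G) G : ℂ)) →
  (∀ (c : Ω → ℂ) (G G' : Lp V 2 μ), AM μ C c → (∃ B : ℝ, ∀ᵐ x ∂μ, ‖c x‖ ≤ B) →
    (∀ᵐ x ∂μ, G' x = c x • G x) → ∀ᵐ x ∂μ, (Ψ G') x = c x • (Ψ G) x) →
  (∀ G G' : Lp V 2 μ, (∀ᵐ x ∂μ, G' x = θ x (G (R x))) →
    ∀ᵐ x ∂μ, (Ψ G') x = θ x ((Ψ G) (R x))) →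
  (∀ (m : ℕ) (e : Fin m → Lp V 2 μ), ON μ C e →
    ∑ a, RCLike.re (inner ℂ (Ψ (e a)) (e a) : ℂ) ≤ A) → 0 < s →
  ∃ E : Submodule ℂ (Lp V 2 μ), CM μ C R θ E ∧ (∀ n : ℕ, A / s < n + 1 → Rk μ C E n) ∧
    (∀ G ∈ E, s * ‖G‖ ^ 2 ≤ RCLike.re (inner ℂ (Ψ G) G : ℂ)) ∧
    (∀ G, (∀ G' ∈ E, (inner ℂ G' G : ℂ) = 0) →
      RCLike.re (inner ℂ (Ψ G) G : ℂ) ≤ s * ‖G‖ ^ 2) ∧
    ∀ E' : Submodule ℂ (Lp V 2 μ), IsClosed (E' : Set (Lp V 2 μ)) → (∀ G, Ψ G ∈ E') → E ≤ E'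

/-- KK: functions which are orthogonal to the unimodular functions with increments in `C`. -/
def ST_KK : Prop := ∀ (Ω : Type) [MeasurableSpace Ω] (μ : Measure Ω) [IsProbabilityMeasure μ]
  (R R' : Ω → Ω) (C 𝒜 : SA Ω) (h F : Ω → ℂ) (n : ℕ), Sys μ R R' → Ergodic R μ →
  IA μ C R R' → IA μ 𝒜 R R' → LQ μ C 𝒜 → UF μ h → Inc μ 𝒜 R h → SM μ C 𝒜 R n → BF F →
  AM μ 𝒜 (fun x => conj (h x) * F x) →
  (∀ ψ, UF μ ψ → Inc μ C R ψ → AM μ 𝒜 (fun x => conj (h x) * ψ x) →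
    μ[fun x => conj (ψ x) * F x|C] =ᵐ[μ] 0) →
  limsup (fun H => al μ C R (fun _ => 1) F H) atTop ≤ (∫ x, ‖F x‖ ^ 2 ∂μ) ^ 2 / (n + 1)

/-! ### Block V: the estimate -/

/-- BI: the inequality of Bessel type. -/
def ST_BI : Prop := ∀ (Ω : Type) [MeasurableSpace Ω] (μ : Measure Ω) [IsProbabilityMeasure μ]
  (R R' : Ω → Ω) (ℬ C 𝒜 : SA Ω) (F : Ω → ℂ) (δ α : ℝ), Sys μ R R' → Ergodic R μ →
  IA μ ℬ R R' → IA μ C R R' → IA μ 𝒜 R R' → LQ μ C 𝒜 → 0 ≤ δ → 0 ≤ α →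
  (∀ G : Ω → ℂ, BF G → AM μ 𝒜 G → μ[G|C] =ᵐ[μ] 0 →
    ∫ x, ‖(μ[G|ℬ]) x‖ ^ 2 ∂μ ≤ δ * ∫ x, ‖G x‖ ^ 2 ∂μ) →
  BF F → (∀ m n : ℕ, AM μ 𝒜 (fun x => F (R^[m] x) * conj (F (R^[n] x)))) →
  limsup (fun H => al μ C R (fun _ => 1) F H) atTop ≤ α →
  ∫ x, ‖(μ[F|ℬ]) x‖ ^ 2 ∂μ ≤ √α + √δ * ∫ x, ‖F x‖ ^ 2 ∂μ

/-- VF2: functions orthogonal to all classes. -/
def ST_VF2 : Prop := ∀ (N : ℕ) (lev : Fin N → ℕ) (f f' : Fin N → T N → U) (p q : ℕ)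
  (κ : Measure (T N × T N)) (C : SA (T N)) (l n : ℕ) (δ : ℝ) (a : Fin N → ℤ) (F : T N → ℂ),
  TI lev f f' → (∀ m : ℕ, 1 ≤ m → EG lev f m) → 1 ≤ p → 1 ≤ q → JN f p q κ →
  HP lev f f' p q κ C l → SM (mm N) C (AL lev l) (SS f)^[p] n → 0 ≤ δ → VE lev κ C l δ →
  la lev l a → BF F → AM (mm N) (AL lev l) (fun x => conj (ex a x) * F x) →
  (∀ ψ ∈ PA lev f p C l a, (mm N)[fun x => conj (ψ x) * F x|C] =ᵐ[mm N] 0) →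
  JJ κ F ≤ (1 / √((n : ℝ) + 1) + √δ) * ∫ x, ‖F x‖ ^ 2 ∂(mm N)

/-- VF1: the splitting of homogeneous functions. -/
def ST_VF1 : Prop := ∀ (N : ℕ) (lev : Fin N → ℕ) (f f' : Fin N → T N → U) (p q : ℕ)
  (κ : Measure (T N × T N)) (C : SA (T N)) (l : ℕ) (a : Fin N → ℤ) (F : T N → ℂ),
  TI lev f f' → (∀ m : ℕ, 1 ≤ m → EG lev f m) → p.Prime → q.Prime → p ≠ q → JN f p q κ →
  HP lev f f' p q κ C l → la lev l a → BF F →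
  AM (mm N) (AL lev l) (fun x => conj (ex a x) * F x) →
  ∃ F₁ F₂ : T N → ℂ, BF F₁ ∧ BF F₂ ∧ (F =ᵐ[mm N] fun x => F₁ x + F₂ x) ∧
    AM (mm N) (AL lev l) (fun x => conj (ex a x) * F₂ x) ∧
    (∀ ψ ∈ PA lev f p C l a, (mm N)[fun x => conj (ψ x) * F₂ x|C] =ᵐ[mm N] 0) ∧
    ∫ x, ‖F₂ x‖ ^ 2 ∂(mm N) ≤ ∫ x, ‖F x‖ ^ 2 ∂(mm N) ∧
    ∀ G : T N → ℂ, BF G → (G =ᵐ[mm N] (mm N)[F|jo C (sg (VS lev f p q κ C l))]) →
      κ[fun z => F₁ z.1|BB N] =ᵐ[κ] κ[fun z => G z.1|BB N]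

/-- VST: the induction step for the estimate. -/
def ST_VST : Prop := ∀ (N : ℕ) (lev : Fin N → ℕ) (f f' : Fin N → T N → U) (p q : ℕ)
  (κ : Measure (T N × T N)) (C : SA (T N)) (l n : ℕ) (δ : ℝ), TI lev f f' → MR lev f →
  (∀ m : ℕ, 1 ≤ m → EG lev f m) → (∀ m : ℕ, 1 ≤ m → NU lev f m) → p.Prime → q.Prime → p ≠ q →
  JN f p q κ → HP lev f f' p q κ C l → SM (mm N) C (AL lev l) (SS f)^[p] n → 0 ≤ δ →
  VE lev κ C l δ →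
  VE lev κ (jo C (sg (VS lev f p q κ C l))) (l + 1) (1 / √((n : ℝ) + 1) + √δ)

/-! ### Block T: factors of type `q` -/

/-- TR0: the trivial level. -/
def ST_TR0 : Prop := ∀ (N : ℕ) (lev : Fin N → ℕ) (f f' : Fin N → T N → U), TR lev f f' 0

/-- TR1: level `0`. -/
def ST_TR1 : Prop := ∀ (N : ℕ) (lev : Fin N → ℕ) (f f' : Fin N → T N → U), TI lev f f' →
  TR lev f f' 1

/-- TRS: one step. -/
def ST_TRS : Prop := ∀ (N : ℕ) (lev : Fin N → ℕ) (f f' : Fin N → T N → U), TI lev f f' →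
  MR lev f → EG lev f 1 → ∀ l : ℕ, 1 ≤ l → TR lev f f' l → TR lev f f' (l + 1)

/-! ### Summary -/

/-- the final statement on ergodic joinings -/
def ST_JSM : Prop := ∀ (N : ℕ) (lev : Fin N → ℕ) (f : Fin N → T N → U), Tow lev f → MR lev f →
  NE lev f → ∀ F : T N → ℂ, MemLp F 2 (mm N) → ∫ x, F x ∂(mm N) = 0 → ∀ ε : ℝ, 0 < ε →
  ∃ q₀ : ℕ, ∀ q ≥ q₀, q.Prime → ∀ p : ℕ, p.Prime → p ≠ q → ∀ κ : Measure (T N × T N),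
    JN f p q κ → JJ κ F ≤ ε

end Pool.Agent.Helper98.TW
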