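import Pool.Agent.Helper98.TW.Basic

/-!
Towers of torus extensions (MP_7a8f48_an): assembly of the sheet TW.
-/

set_option linter.unusedSectionVars false

open MeasureTheory Filter Topology Finset
open scoped ComplexConjugate

namespace Pool.Agent.Helper98.TW

open Pool.Agent.Helper16.AZ (T mm)

/-- the hulls of ergodic joinings -/
def ST_HUL : Prop := ∀ (N : ℕ) (lev : Fin N → ℕ) (f f' : Fin N → T N → U), TI lev f f' →
  MR lev f → NE lev f → ∀ L : ℕ, (∀ i, lev i < L) → ∀ (n : ℕ) (ε : ℝ), 0 < ε →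
  ∀ (k : ℕ) (G : Fin k → T N → ℂ), (∀ i, MemLp (G i) 2 (mm N)) →
  (∀ i, ∫ x, G i x ∂(mm N) = 0) →
  ∃ q₀ : ℕ, ∀ q ≥ q₀, q.Prime → ∀ p : ℕ, p.Prime → p ≠ q → ∀ κ : Measure (T N × T N),
    JN f p q κ →
      HP lev f f' p q κ (CC lev f p q κ L) L ∧
      SM (mm N) (CC lev f p q κ L) (AL lev L) (SS f)^[p] n ∧
      VE lev κ (CC lev f p q κ L) L ε ∧
      ∀ i, ∫ x, ‖((mm N)[G i|CC lev f p q κ L]) x‖ ^ 2 ∂(mm N) ≤ ε

/-! ### the numbers -/

/-- the constants of the estimate -/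
noncomputable def dd (n : ℕ) : ℕ → ℝ
  | 0 => 0
  | l + 1 => 1 / √((n : ℝ) + 1) + √(dd n l)

theorem dd_nonneg (n l : ℕ) : 0 ≤ dd n l := by
  induction l with
  | zero => exact le_rfl
  | succ l ih => unfold dd; positivity

theorem dd_tendsto (l : ℕ) : Tendsto (fun n : ℕ => dd n l) atTop (𝓝 0) := by
  induction l with
  | zero => exact tendsto_const_nhds
  | succ l ih =>
    have h1 : Tendsto (fun n : ℕ => 1 / √((n : ℝ) + 1)) atTop (𝓝 0) := by
      have h2 : Tendsto (fun n : ℕ => √((n : ℝ) + 1)) atTop atTop :=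
        Real.tendsto_sqrt_atTop.comp (tendsto_atTop_add_const_right _ _ tendsto_natCast_atTop_atTop)
      refine h2.inv_tendsto_atTop.congr fun m => ?_
      simp
    have h3 : Tendsto (fun n : ℕ => √(dd n l)) atTop (𝓝 0) := by
      have := (Real.continuous_sqrt.tendsto 0).comp ih
      rw [Real.sqrt_zero] at this
      exact this
    have := h1.add h3
    simpa [dd] using this

/-! ### the hull -/

section hull

variable {N : ℕ} {lev : Fin N → ℕ} {f f' : Fin N → T N → U} {p q : ℕ}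
  {κ : Measure (T N × T N)}

theorem hp_all (h00 : ST_H00) (hia : ST_HIA) (hnb : ST_HNB) (hnc : ST_HNC) (hns : ST_HNS)
    (hti : TI lev f f') (hmr : MR lev f) (heg : ∀ m : ℕ, 1 ≤ m → EG lev f m) (hp : p.Prime)
    (hq : q.Prime) (hpq : p ≠ q) (hκ : JN f p q κ) (l : ℕ) :
    HP lev f f' p q κ (CC lev f p q κ l) l := by
  induction l with
  | zero => exact h00 N lev f f' p q κ hti hκ
  | succ l ih =>
    obtain ⟨h1, h2, -⟩ := hia N lev f f' p q κ _ l hti hp hq hpq ih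
    exact ⟨h2, h1, hnb N lev f f' p q κ _ l hti hmr heg hκ hp hq hpq ih,
      hnc N lev f f' p q κ _ l hti hmr heg hκ hp hq hpq ih,
      hns N lev f f' p q κ _ l hti hmr heg hκ hp hq hpq ih⟩

theorem qt_all (haa : ST_HAA) (hsi : ST_HSI) (hdv : ST_HDV)
    (hti : TI lev f f') (hmr : MR lev f) (heg : ∀ m : ℕ, 1 ≤ m → EG lev f m) (hp : p.Prime)
    (hq : q.Prime) (hpq : p ≠ q) (hκ : JN f p q κ)
    (hh : ∀ l, HP lev f f' p q κ (CC lev f p q κ l) l) :
    QT lev f f' q (CC lev f p q κ) (fun l => VS lev f p q κ (CC lev f p q κ l) l) := by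
  refine ⟨rfl, fun l => rfl, fun l => (hh l).le, fun l => (hh l).ia, fun l => ?_, fun l ψ hψ => ?_,
    fun l ψ hψ h => ?_, fun ψ hψ k hk h => ?_⟩
  · exact (haa N lev f f' p q κ _ l hti (hh l)).1
  · refine ⟨hψ.1.1, hψ.1.2.1, ?_⟩
    have := hsi N lev f f' p q κ _ l hti hp hq hpq (hh l) ψ hψ.1
    simpa using this
  · exact (haa N lev f f' p q κ _ l hti (hh l)).2 ψ hψ h
  · exact hdv N lev f f' p q κ hti hmr heg hp hq hpq hκ ψ hψ k hk h

theorem ve_zero (als : ST_ALS) (hκ : JN f p q κ) : VE lev κ bo 0 0 := by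
  intro G _ hG hGA h0
  have hA0 : AL lev 0 = bo := (als N lev).1
  rw [hA0] at hGA
  have hprob := hκ.prob
  have h1 : G =ᵐ[mm N] 0 := by
    have hint : Integrable G (mm N) := hG.integrable (by norm_num)
    have hpm : IsProbabilityMeasure (mm N) := by infer_instance
    have hsf : SigmaFinite ((mm N).trim (lm_bo : Lm (bo : SA (T N)))) :=
      @IsFiniteMeasure.toSigmaFinite _ _ _ (isFiniteMeasure_trim lm_bo)
    have h2 : (mm N)[G|bo] =ᵐ[mm N] G :=
      condExp_of_aestronglyMeasurable' lm_bo hGA hint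
    exact h2.symm.trans h0
  have h2 : (fun z : T N × T N => G z.1) =ᵐ[κ] 0 := by
    have : MeasurePreserving Prod.fst κ (mm N) := ⟨measurable_fst, hκ.fst⟩
    exact this.quasiMeasurePreserving.ae h1
  have h3 : κ[fun z => G z.1|BB N] =ᵐ[κ] 0 := by
    refine (condExp_congr_ae h2).trans ?_
    rw [show (κ[(0 : T N × T N → ℂ)|BB N]) = 0 from condExp_zero]
  have h4 : JJ κ G = 0 := by
    unfold JJ
    rw [integral_congr_ae (g := fun _ => (0 : ℝ)), integral_zero]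
    filter_upwards [h3] with z hz
    rw [hz]
    simp
  rw [h4]
  simp

theorem ve_all (als : ST_ALS) (srk : ST_SRK) (vst : ST_VST) {L n : ℕ}
    (hti : TI lev f f') (hmr : MR lev f) (heg : ∀ m : ℕ, 1 ≤ m → EG lev f m)
    (hnu : ∀ m : ℕ, 1 ≤ m → NU lev f m) (hp : p.Prime)
    (hq : q.Prime) (hpq : p ≠ q) (hκ : JN f p q κ)
    (hh : ∀ l, HP lev f f' p q κ (CC lev f p q κ l) l) (hn : 1 ≤ n) (hnq : n ^ 2 ^ L < q) :
    ∀ l ≤ L, VE lev κ (CC lev f p q κ l) l (dd n l) := by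
  intro l
  induction l with
  | zero => exact fun _ => ve_zero als hκ
  | succ l ih =>
    intro hl
    have hsm : SM (mm N) (CC lev f p q κ l) (AL lev l) (SS f)^[p] n := by
      refine srk N lev f f' p q κ _ l n hti heg hp.one_lt.le hq (hh l) hn ?_
      exact lt_of_le_of_lt (Nat.pow_le_pow_right hn (Nat.pow_le_pow_right (by norm_num)
        (by omega))) hnq
    exact vst N lev f f' p q κ _ l n (dd n l) hti hmr heg hnu hp hq hpq hκ (hh l) hsm
      (dd_nonneg n l) (ih (by omega))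

theorem tr_all (tr0 : ST_TR0) (tr1 : ST_TR1) (trs : ST_TRS) (hti : TI lev f f')
    (hmr : MR lev f) (heg : EG lev f 1) (l : ℕ) : TR lev f f' l := by
  induction l with
  | zero => exact tr0 N lev f f'
  | succ l ih =>
    rcases Nat.eq_zero_or_pos l with rfl | hl
    · exact tr1 N lev f f' hti
    · exact trs N lev f f' hti hmr heg l hl ih

end hull

theorem hul (als : ST_ALS) (nec : ST_NEC) (eig : ST_EIG) (erp : ST_ERP) (pow : ST_POW)
    (h00 : ST_H00) (haa : ST_HAA) (hsi : ST_HSI) (hia : ST_HIA) (hnb : ST_HNB) (hnc : ST_HNC)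
    (hns : ST_HNS) (hdv : ST_HDV) (srk : ST_SRK) (vst : ST_VST) (tr0 : ST_TR0) (tr1 : ST_TR1)
    (trs : ST_TRS) : ST_HUL := by
  intro N lev f f' hti hmr hne L hL n ε hε k G hG hG0
  have hnu1 : NU lev f 1 := nec N lev f hti.t hne
  have heg1 : EG lev f 1 := eig N lev f f' hti hmr hnu1
  have heg : ∀ m : ℕ, 1 ≤ m → EG lev f m := erp N lev f f' hti hmr heg1
  have hnu : ∀ m : ℕ, 1 ≤ m → NU lev f m := pow N lev f f' hti hmr hnu1 heg
  obtain ⟨n₀, hn₀, hn₀1, hnn⟩ : ∃ n₀ : ℕ, dd n₀ L ≤ ε ∧ 1 ≤ n₀ ∧ n ≤ n₀ := by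
    have h1 : ∀ᶠ m : ℕ in atTop, dd m L < ε := (dd_tendsto L).eventually (gt_mem_nhds hε)
    obtain ⟨m, hm, hm1, hm2⟩ := (h1.and ((eventually_ge_atTop 1).and (eventually_ge_atTop n))).exists
    exact ⟨m, hm.le, hm1, hm2⟩
  have htr := tr_all tr0 tr1 trs hti hmr heg1 L
  have hAL : ∀ i, AM (mm N) (AL lev L) (G i) := by
    intro i
    have h5 := (als N lev).2.2.2.2.1 L hL
    rw [h5]
    exact (hG i).1
  choose Q hQ using fun i => htr (G i) (hG i) (hAL i) (hG0 i) ε hε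
  refine ⟨max (n₀ ^ 2 ^ L + 1) (Finset.univ.sup Q), fun q hq hqp p hp hpq κ hκ => ?_⟩
  have hq1 : n₀ ^ 2 ^ L < q := lt_of_lt_of_le (Nat.lt_succ_self _) ((le_max_left _ _).trans hq)
  have hh := hp_all (κ := κ) h00 hia hnb hnc hns hti hmr heg hp hqp hpq hκ
  have hqt := qt_all haa hsi hdv hti hmr heg hp hqp hpq hκ hh
  refine ⟨hh L, ?_, ?_, fun i => ?_⟩
  · have hsm : SM (mm N) (CC lev f p q κ L) (AL lev L) (SS f)^[p] n₀ :=
      srk N lev f f' p q κ _ L n₀ hti heg hp.one_lt.le hqp (hh L) hn₀1 hq1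
    intro h hh1 hh2 E hE hE0 hEh hrk
    exact hsm h hh1 hh2 E hE hE0 hEh fun m e he1 he2 => (hrk m e he1 he2).trans hnn
  · have hve := ve_all als srk vst hti hmr heg hnu hp hqp hpq hκ hh hn₀1 hq1 L le_rfl
    intro F hF1 hF2 hF3 hF4
    refine (hve F hF1 hF2 hF3 hF4).trans ?_
    gcongr
  · refine hQ i q ?_ _ _ hqt
    refine le_trans ?_ ((le_max_right _ _).trans hq)
    exact Finset.le_sup (Finset.mem_univ i)

end Pool.Agent.Helper98.TW
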