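import Pool.Agent.Helper98.TW.Hul
import Pool.Agent.Helper73.TWR.Tool

/-!
Towers of torus extensions (MP_7a8f48_an): the summary on ergodic joinings.
-/

open MeasureTheory Filter Topology Finset
open scoped ComplexConjugate

namespace Pool.Agent.Helper98.TW

open Pool.Agent.Helper16.AZ (T mm)
open Pool.Agent.Helper73.TWR

section jj

variable {N : ℕ} {κ : Measure (T N × T N)} {F G : T N → ℂ}

theorem lm_BB : Lm (BB N) := lm_cm measurable_snd (le_refl (inferInstance : MeasurableSpace (T N)))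

theorem JJ_congr (hκ : κ.map Prod.fst = mm N) (h : F =ᵐ[mm N] G) : JJ κ F = JJ κ G := by
  have hmp : MeasurePreserving Prod.fst κ (mm N) := ⟨measurable_fst, hκ⟩
  have h1 : (fun z : T N × T N => F z.1) =ᵐ[κ] fun z => G z.1 :=
    hmp.quasiMeasurePreserving.ae h
  have h2 : κ[fun z : T N × T N => F z.1|BB N] =ᵐ[κ] κ[fun z => G z.1|BB N] :=
    condExp_congr_ae h1
  unfold JJ
  refine integral_congr_ae ?_
  filter_upwards [h2] with z hz
  rw [hz]

theorem JJ_le (hκ : κ.map Prod.fst = mm N) (hprob : IsProbabilityMeasure κ)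
    (hF : MemLp F 2 (mm N)) : JJ κ F ≤ ∫ x, ‖F x‖ ^ 2 ∂(mm N) := by
  have hmp : MeasurePreserving Prod.fst κ (mm N) := ⟨measurable_fst, hκ⟩
  have h1 : MemLp (fun z : T N × T N => F z.1) 2 κ := hF.comp_measurePreserving hmp
  have h2 := ce_sq_le (𝒜 := BB N) h1
  refine h2.trans (le_of_eq ?_)
  have h3 : AEStronglyMeasurable (fun x => ‖F x‖ ^ 2) (κ.map Prod.fst) := by
    rw [hκ]; exact hF.1.norm.pow 2
  rw [← hκ, integral_map hmp.measurable.aemeasurable h3]

theorem JJ_add_le (hκ : κ.map Prod.fst = mm N) (hF : MemLp F 2 (mm N)) (hG : MemLp G 2 (mm N))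
    (hprob : IsProbabilityMeasure κ) :
    JJ κ (fun x => F x + G x) ≤ 2 * JJ κ F + 2 * JJ κ G := by
  have hmp : MeasurePreserving Prod.fst κ (mm N) := ⟨measurable_fst, hκ⟩
  have h1 : MemLp (fun z : T N × T N => F z.1) 2 κ := hF.comp_measurePreserving hmp
  have h2 : MemLp (fun z : T N × T N => G z.1) 2 κ := hG.comp_measurePreserving hmp
  have h3 := ce_add (𝒜 := BB N) (h1.integrable (by norm_num)) (h2.integrable (by norm_num))
  have e1 : MemLp (κ[fun z : T N × T N => F z.1|BB N]) 2 κ := ce_memLp h1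
  have e2 : MemLp (κ[fun z : T N × T N => G z.1|BB N]) 2 κ := ce_memLp h2
  have i1 : Integrable (fun z => ‖(κ[fun z : T N × T N => F z.1|BB N]) z‖ ^ 2) κ :=
    e1.integrable_norm_pow (by norm_num)
  have i2 : Integrable (fun z => ‖(κ[fun z : T N × T N => G z.1|BB N]) z‖ ^ 2) κ :=
    e2.integrable_norm_pow (by norm_num)
  unfold JJ
  rw [← integral_const_mul, ← integral_const_mul, ← integral_add (i1.const_mul 2)
    (i2.const_mul 2)]
  refine integral_mono_of_nonneg (Eventually.of_forall fun z => by positivity)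
    ((i1.const_mul 2).add (i2.const_mul 2)) ?_
  filter_upwards [h3] with z hz
  rw [hz]
  have h5 := norm_add_le ((κ[fun z : T N × T N => F z.1|BB N]) z)
    ((κ[fun z : T N × T N => G z.1|BB N]) z)
  nlinarith [norm_nonneg ((κ[fun z : T N × T N => F z.1|BB N]) z),
    norm_nonneg ((κ[fun z : T N × T N => G z.1|BB N]) z),
    norm_nonneg ((κ[fun z : T N × T N => F z.1|BB N]) z +
      (κ[fun z : T N × T N => G z.1|BB N]) z),
    sq_nonneg (‖(κ[fun z : T N × T N => F z.1|BB N]) z‖ -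
      ‖(κ[fun z : T N × T N => G z.1|BB N]) z‖)]

/-- the correlations of a joining -/
theorem corr_le (hκ : κ.map Prod.fst = mm N) (hκ' : κ.map Prod.snd = mm N)
    (hprob : IsProbabilityMeasure κ) (hF : MemLp F 2 (mm N)) (hG : MemLp G 2 (mm N)) :
    ‖∫ z, F z.1 * conj (G z.2) ∂κ‖ ≤ √(JJ κ F) * √(∫ x, ‖G x‖ ^ 2 ∂(mm N)) := by
  have hmp : MeasurePreserving Prod.fst κ (mm N) := ⟨measurable_fst, hκ⟩
  have hmp' : MeasurePreserving Prod.snd κ (mm N) := ⟨measurable_snd, hκ'⟩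
  have h1 : MemLp (fun z : T N × T N => F z.1) 2 κ := hF.comp_measurePreserving hmp
  have h2 : MemLp (fun z : T N × T N => G z.2) 2 κ := hG.comp_measurePreserving hmp'
  have h2' : MemLp (fun z : T N × T N => conj (G z.2)) 2 κ := memLp_conj h2
  have hG0 : AM κ (BB N) (fun z : T N × T N => conj (G z.2)) := by
    obtain ⟨g, hg, hGg⟩ := hG.1
    refine am_iff.2 ⟨fun z => conj (g z.2), ?_, ?_⟩
    · have e : Measurable[BB N] (fun z : T N × T N => g z.2) :=
        hg.measurable.comp (comap_measurable (Prod.snd : T N × T N → T N))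
      exact Complex.continuous_conj.measurable.comp e
    · have := hmp'.quasiMeasurePreserving.ae hGg
      filter_upwards [this] with z hz
      rw [hz]
  have h3 : ∫ z, conj (G z.2) * (κ[fun z : T N × T N => F z.1|BB N]) z ∂κ =
      ∫ z, conj (G z.2) * F z.1 ∂κ :=
    int_ce_left lm_BB hG0 (l2_mul h2' h1) (h1.integrable (by norm_num))
  have h4 : ∫ z, F z.1 * conj (G z.2) ∂κ =
      ∫ z, (κ[fun z : T N × T N => F z.1|BB N]) z * conj (G z.2) ∂κ := by
    calc ∫ z, F z.1 * conj (G z.2) ∂κ = ∫ z, conj (G z.2) * F z.1 ∂κ := by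
          congr 1; ext z; ring
      _ = ∫ z, conj (G z.2) * (κ[fun z : T N × T N => F z.1|BB N]) z ∂κ := h3.symm
      _ = _ := by congr 1; ext z; ring
  have e1 : MemLp (κ[fun z : T N × T N => F z.1|BB N]) 2 κ := ce_memLp h1
  rw [h4]
  have h5 := integral_mul_le_Lp_mul_Lq_of_nonneg (μ := κ)
    (f := fun z => ‖(κ[fun z : T N × T N => F z.1|BB N]) z‖) (g := fun z => ‖G z.2‖)
    (p := 2) (q := 2) (by constructor <;> norm_num)
    (Eventually.of_forall fun z => norm_nonneg _) (Eventually.of_forall fun z => norm_nonneg _)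
    (by simpa using e1.norm) (by simpa using h2.norm)
  have h6 : ‖∫ z, (κ[fun z : T N × T N => F z.1|BB N]) z * conj (G z.2) ∂κ‖ ≤
      ∫ z, ‖(κ[fun z : T N × T N => F z.1|BB N]) z‖ * ‖G z.2‖ ∂κ := by
    refine (norm_integral_le_integral_norm _).trans (le_of_eq ?_)
    congr 1
    ext z
    rw [norm_mul, RCLike.norm_conj]
  refine h6.trans (h5.trans (le_of_eq ?_))
  have h7 : AEStronglyMeasurable (fun x => ‖G x‖ ^ 2) (κ.map Prod.snd) := by
    rw [hκ']; exact hG.1.norm.pow 2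
  have h8 : ∫ x, ‖G x‖ ^ 2 ∂(mm N) = ∫ z, ‖G z.2‖ ^ 2 ∂κ := by
    rw [← hκ', integral_map hmp'.measurable.aemeasurable h7]
  rw [h8]
  simp only [Real.sqrt_eq_rpow, JJ]
  norm_num

end jj

theorem jsm (inv : ST_INV) (als : ST_ALS) (hul : ST_HUL) : ST_JSM := by
  intro N lev f ht hmr hne F hF hF0 ε hε
  have hpm : IsProbabilityMeasure (mm N) := inferInstance
  obtain ⟨f', hti⟩ := inv N lev f ht
  obtain ⟨L, hL⟩ : ∃ L : ℕ, ∀ i, lev i < L :=
    ⟨Finset.univ.sup lev + 1, fun i => Nat.lt_succ_of_le (Finset.le_sup (Finset.mem_univ i))⟩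
  have hAL : AL lev L = (inferInstance : MeasurableSpace (T N)) := (als N lev).2.2.2.2.1 L hL
  set I : ℝ := ∫ x, ‖F x‖ ^ 2 ∂(mm N) with hI
  have hI0 : 0 ≤ I := integral_nonneg fun x => by positivity
  have hε' : 0 < ε / (4 * (I + 1)) := by positivity
  have hm0 : 0 < min (ε / 4) (ε / (4 * (I + 1))) := lt_min (by positivity) hε'
  obtain ⟨q₀, hq₀⟩ := hul N lev f f' hti hmr hne L hL 1 _ hm0 1 (fun _ => F) (fun _ => hF)
    (fun _ => hF0)
  refine ⟨q₀, fun q hq hqp p hp hpq κ hκ => ?_⟩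
  obtain ⟨hhp, -, hve, htr⟩ := hq₀ q hq hqp p hp hpq κ hκ
  have hprob := hκ.prob
  set C := CC lev f p q κ L with hC
  have hLm : Lm C := hhp.ia.1
  set F₀ := hF.1.mk F with hF₀
  have hFF : F =ᵐ[mm N] F₀ := hF.1.ae_eq_mk
  have hF₀m : Measurable F₀ := hF.1.stronglyMeasurable_mk.measurable
  have hF₀2 : MemLp F₀ 2 (mm N) := (memLp_congr_ae hFF).1 hF
  set E := (mm N)[F₀|C] with hE
  have hE2 : MemLp E 2 (mm N) := ce_memLp hF₀2
  have hEF : E =ᵐ[mm N] (mm N)[F|C] := condExp_congr_ae hFF.symm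
  have hD2 : MemLp (fun x => F₀ x - E x) 2 (mm N) := hF₀2.sub hE2
  have hDm : Measurable fun x => F₀ x - E x := hF₀m.sub (ce_meas hLm)
  have hD0 : (mm N)[fun x => F₀ x - E x|C] =ᵐ[mm N] 0 := by
    have h1 := ce_sub (𝒜 := C) (hF₀2.integrable (by norm_num)) (hE2.integrable (by norm_num))
    have h2 : (mm N)[E|C] =ᵐ[mm N] E := ce_of_am hLm (hE2.integrable (by norm_num)) ce_am
    filter_upwards [h1, h2] with x hx1 hx2
    rw [hx1, hx2]
    simp [hE]
  have hAD : AM (mm N) (AL lev L) (fun x => F₀ x - E x) := by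
    rw [hAL]
    exact hDm.aestronglyMeasurable
  have h1 : JJ κ (fun x => F₀ x - E x) ≤ ε / 4 := by
    refine (hve _ hDm hD2 hAD hD0).trans ?_
    have h3 : ∫ x, ‖F₀ x - E x‖ ^ 2 ∂(mm N) ≤ I := by
      refine (sub_ce_sq hLm hF₀2).trans (le_of_eq ?_)
      rw [hI]
      refine integral_congr_ae ?_
      filter_upwards [hFF] with x hx
      rw [hx]
    have h4 : 0 ≤ ∫ x, ‖F₀ x - E x‖ ^ 2 ∂(mm N) := integral_nonneg fun x => by positivity
    calc min (ε / 4) (ε / (4 * (I + 1))) * ∫ x, ‖F₀ x - E x‖ ^ 2 ∂(mm N)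
        ≤ (ε / (4 * (I + 1))) * (I + 1) := by
          refine mul_le_mul (min_le_right _ _) (h3.trans (by linarith)) h4 hε'.le
      _ = ε / 4 := by field_simp
  have h2 : JJ κ E ≤ ε / 4 := by
    refine (JJ_le hκ.fst hprob hE2).trans ?_
    refine le_trans (le_of_eq ?_) ((htr 0).trans (min_le_left _ _))
    refine integral_congr_ae ?_
    filter_upwards [hEF] with x hx
    rw [hx]
  have h3 : JJ κ F = JJ κ (fun x => (F₀ x - E x) + E x) := by
    refine JJ_congr hκ.fst ?_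
    filter_upwards [hFF] with x hx
    rw [hx]; ring
  rw [h3]
  refine (JJ_add_le hκ.fst hD2 hE2 hprob).trans ?_
  linarith

end Pool.Agent.Helper98.TW
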