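import Pool.Agent.Helper16.AZ.Defs

/-!
Towers of torus extensions (MP_7a8f48_an): definitions for the modules of the sheet TW.
-/

open MeasureTheory Filter Topology Finset
open scoped ComplexConjugate

namespace Pool.Agent.Helper98.TW

open Pool.Agent.Helper16.AZ (T mm)
open UnitAddTorus (mFourier)

/-- the circle -/
abbrev U : Type := UnitAddCircle

/-! ### sigma algebras, unimodular functions, systems -/

/-- sigma algebras (the same as `MeasurableSpace`, but not used for instances) -/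
def SA (Ω : Type) : Type := MeasurableSpace Ω

/-- join of two sigma algebras -/
noncomputable def jo {Ω : Type} (𝒜 ℬ : SA Ω) : SA Ω := @max (MeasurableSpace Ω) _ 𝒜 ℬ

/-- the trivial sigma algebra -/
noncomputable def bo {Ω : Type} : SA Ω := (⊥ : MeasurableSpace Ω)

/-- inverse image of a sigma algebra -/
noncomputable def cm {Ω Ω' : Type} (g : Ω → Ω') (𝒜 : SA Ω') : SA Ω := MeasurableSpace.comap g 𝒜

section gen

variable {Ω : Type} [m0 : MeasurableSpace Ω]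

/-- `f` is almost everywhere equal to a function which is measurable for the sigma algebra `𝒜` -/
def AM (μ : Measure Ω) (𝒜 : SA Ω) (f : Ω → ℂ) : Prop := AEStronglyMeasurable[𝒜] f μ

/-- measurable functions of modulus one -/
def UF (μ : Measure Ω) (f : Ω → ℂ) : Prop := Measurable f ∧ ∀ᵐ x ∂μ, ‖f x‖ = 1

/-- bounded measurable functions -/
def BF (f : Ω → ℂ) : Prop := Measurable f ∧ ∃ B : ℝ, ∀ x, ‖f x‖ ≤ B

/-- `R` preserves the measure and `R'` is its inverse (almost everywhere) -/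
structure Sys (μ : Measure Ω) (R R' : Ω → Ω) : Prop where
  mp : MeasurePreserving R μ μ
  mp' : MeasurePreserving R' μ μ
  l : ∀ᵐ x ∂μ, R' (R x) = x
  r : ∀ᵐ x ∂μ, R (R' x) = x

/-- `𝒜` is contained in the sigma algebra of the space -/
def Lm (𝒜 : SA Ω) : Prop := @LE.le (MeasurableSpace Ω) _ 𝒜 m0

/-- the sigma algebra `𝒜` is invariant under `R` and its inverse `R'` -/
def IA (μ : Measure Ω) (𝒜 : SA Ω) (R R' : Ω → Ω) : Prop :=
  Lm 𝒜 ∧ ∀ f : Ω → ℂ, AM μ 𝒜 f → AM μ 𝒜 (fun x => f (R x)) ∧ AM μ 𝒜 (fun x => f (R' x))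

/-- inclusion up to null sets -/
def LQ (μ : Measure Ω) (𝒜 ℬ : SA Ω) : Prop := ∀ f : Ω → ℂ, AM μ 𝒜 f → AM μ ℬ f

/-- `ψ` has increments in `𝒜` -/
def Inc (μ : Measure Ω) (𝒜 : SA Ω) (R : Ω → Ω) (ψ : Ω → ℂ) : Prop :=
  AM μ 𝒜 (fun x => ψ (R x) * conj (ψ x))

/-- the sigma algebra generated by a set of functions -/
noncomputable def sg (Φ : Set (Ω → ℂ)) : SA Ω :=
  (⨆ φ ∈ Φ, MeasurableSpace.comap φ (inferInstance : MeasurableSpace ℂ) : MeasurableSpace Ω)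

/-- a group of unimodular functions -/
structure Grp (μ : Measure Ω) (Φ : Set (Ω → ℂ)) : Prop where
  uf : ∀ φ ∈ Φ, UF μ φ
  one : (fun _ => 1) ∈ Φ
  mul : ∀ φ ∈ Φ, ∀ ψ ∈ Φ, (fun x => φ x * ψ x) ∈ Φ
  inv : ∀ φ ∈ Φ, (fun x => conj (φ x)) ∈ Φ

/-- a measure preserving action of a torus -/
structure Act (μ : Measure Ω) {d : ℕ} (V : T d → Ω → Ω) : Prop where
  zero : ∀ x, V 0 x = x
  add : ∀ s t x, V (s + t) x = V s (V t x)
  mp : ∀ t, MeasurePreserving (V t) μ μ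

end gen

/-! ### modules -/

section mod

variable {Ω : Type} [m0 : MeasurableSpace Ω]
variable {V : Type} [NormedAddCommGroup V] [InnerProductSpace ℂ V]

/-- closed subspaces of `L²` which are stable under bounded `C`-measurable functions -/
structure C0 (μ : Measure Ω) (C : SA Ω) (E : Submodule ℂ (Lp V 2 μ)) : Prop where
  closed : IsClosed (E : Set (Lp V 2 μ))
  mul : ∀ G ∈ E, ∀ c : Ω → ℂ, AM μ C c → (∃ B : ℝ, ∀ᵐ x ∂μ, ‖c x‖ ≤ B) →
    ∀ G' : Lp V 2 μ, (∀ᵐ x ∂μ, G' x = c x • G x) → G' ∈ E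

/-- moreover stable under `G ↦ θ(x) G(R x)` -/
structure CM (μ : Measure Ω) (C : SA Ω) (R : Ω → Ω) (θ : Ω → V →L[ℂ] V)
    (E : Submodule ℂ (Lp V 2 μ)) : Prop extends C0 μ C E where
  comp : ∀ G ∈ E, ∀ G' : Lp V 2 μ, (∀ᵐ x ∂μ, G' x = θ x (G (R x))) → G' ∈ E

/-- orthonormal over `C` -/
def ON (μ : Measure Ω) (C : SA Ω) {m : ℕ} (e : Fin m → Lp V 2 μ) : Prop :=
  ∀ a b, μ[fun x => (inner ℂ (e b x) (e a x) : ℂ)|C] =ᵐ[μ] fun _ => if a = b then 1 else 0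

/-- the rank over `C` is at most `n` -/
def Rk (μ : Measure Ω) (C : SA Ω) (E : Submodule ℂ (Lp V 2 μ)) (n : ℕ) : Prop :=
  ∀ (m : ℕ) (e : Fin m → Lp V 2 μ), (∀ a, e a ∈ E) → ON μ C e → m ≤ n

/-- minimal modules -/
def Mi (μ : Measure Ω) (C : SA Ω) (R : Ω → Ω) (θ : Ω → V →L[ℂ] V)
    (E : Submodule ℂ (Lp V 2 μ)) : Prop :=
  CM μ C R θ E ∧ E ≠ ⊥ ∧ ∀ E' : Submodule ℂ (Lp V 2 μ), CM μ C R θ E' → E' ≤ E → E' ≠ ⊥ → E' = E

/-- a frame `e` of the module `E` over `C`: orthonormal, spanning, and `ρ` is the matrix of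
`G ↦ θ(x) G(R x)` -/
structure Fr (μ : Measure Ω) (C : SA Ω) (R : Ω → Ω) (θ : Ω → V →L[ℂ] V)
    (E : Submodule ℂ (Lp V 2 μ)) {m : ℕ} (e : Fin m → Lp V 2 μ)
    (ρ : Ω → Matrix (Fin m) (Fin m) ℂ) : Prop where
  mem : ∀ a, e a ∈ E
  on : ON μ C e
  span : ∀ G ∈ E, ∀ᵐ x ∂μ, G x = ∑ a, (μ[fun x => (inner ℂ (e a x) (G x) : ℂ)|C]) x • e a x
  meas : ∀ a b, AM μ C (fun x => ρ x a b)
  unit : ∀ᵐ x ∂μ, ρ x ∈ Matrix.unitaryGroup (Fin m) ℂ
  comp : ∀ a, ∀ᵐ x ∂μ, θ x (e a (R x)) = ∑ b, ρ x a b • e b x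
  norm : ∀ᵐ x ∂μ, ∑ a, ‖e a x‖ ^ 2 = m

/-- `E` is contained in `h L²(𝒜)` (for unimodular `h`) -/
def InH (μ : Measure Ω) (h : Ω → ℂ) (𝒜 : SA Ω) (E : Submodule ℂ (Lp ℂ 2 μ)) : Prop :=
  ∀ G ∈ E, AM μ 𝒜 (fun x => conj (h x) * G x)

/-- modules of rank at most `n` in `h L²(𝒜)` contain a unimodular function with increments
in `C` -/
def SM (μ : Measure Ω) (C 𝒜 : SA Ω) (R : Ω → Ω) (n : ℕ) : Prop :=
  ∀ h : Ω → ℂ, UF μ h → Inc μ 𝒜 R h → ∀ E : Submodule ℂ (Lp ℂ 2 μ), CM μ C R (fun _ => 1) E →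
    E ≠ ⊥ → InH μ h 𝒜 E → Rk μ C E n →
    ∃ ψ : Ω → ℂ, UF μ ψ ∧ Inc μ C R ψ ∧ ∃ G ∈ E, G =ᵐ[μ] ψ

/-- saturation: roots of order at most `n` of `C`-measurable functions in `𝒜` with increments
in `C` are `C`-measurable -/
def Sat (μ : Measure Ω) (C 𝒜 : SA Ω) (R : Ω → Ω) (n : ℕ) : Prop :=
  ∀ ψ : Ω → ℂ, UF μ ψ → AM μ 𝒜 ψ → Inc μ C R ψ → ∀ M : ℕ, 1 ≤ M → M ≤ n →
    AM μ C (fun x => ψ x ^ M) → AM μ C ψ

/-- iterates of `G ↦ θ(x) G(R x)` -/
def Wi (θ : Ω → V →L[ℂ] V) (R : Ω → Ω) (h : ℕ) (F : Ω → V) : Ω → V :=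
  (fun (G : Ω → V) (x : Ω) => θ x (G (R x)))^[h] F

/-- the averages of the square norms of `E(<F, Wʰ F> | C)` -/
noncomputable def al (μ : Measure Ω) (C : SA Ω) (R : Ω → Ω) (θ : Ω → V →L[ℂ] V) (F : Ω → V)
    (H : ℕ) : ℝ :=
  (∑ h ∈ range H, ∫ x, ‖(μ[fun x => (inner ℂ (F x) (Wi θ R h F x) : ℂ)|C]) x‖ ^ 2 ∂μ) / H

end mod

/-! ### towers -/

section tow

variable {N : ℕ}

/-- the coordinates of the levels `< l` -/
def tr (lev : Fin N → ℕ) (l : ℕ) (x : T N) : T N := fun i => if lev i < l then x i else 0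

/-- the coordinates of the level `l` -/
def pk (lev : Fin N → ℕ) (l : ℕ) (x : T N) : T N := fun i => if lev i = l then x i else 0

/-- the sigma algebra of the levels `< l` -/
noncomputable def AL (lev : Fin N → ℕ) (l : ℕ) : SA (T N) :=
  cm (tr lev l) (inferInstance : MeasurableSpace (T N))

/-- frequencies on level `l` -/
def la (lev : Fin N → ℕ) (l : ℕ) (a : Fin N → ℤ) : Prop := ∀ i, a i ≠ 0 → lev i = l

/-- frequencies on the levels `< l` -/
def lb (lev : Fin N → ℕ) (l : ℕ) (a : Fin N → ℤ) : Prop := ∀ i, a i ≠ 0 → lev i < l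

/-- the characters of the torus -/
noncomputable def ex (a : Fin N → ℤ) (x : T N) : ℂ := mFourier a x

/-- the characters on level `l` -/
def CH (lev : Fin N → ℕ) (l : ℕ) : Set (T N → ℂ) := {ψ | ∃ a, la lev l a ∧ ψ = ex a}

/-- the transformation `(S x) i = x i + f i x` -/
def SS (f : Fin N → T N → U) (x : T N) : T N := fun i => x i + f i x

/-- `f i` depends only on the coordinates of the levels below the level of `i` -/
structure Tow (lev : Fin N → ℕ) (f : Fin N → T N → U) : Prop where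
  meas : ∀ i, Measurable (f i)
  dep : ∀ i x, f i (tr lev (lev i) x) = f i x

/-- `f'` gives the inverse of the transformation of `f` -/
structure TI (lev : Fin N → ℕ) (f f' : Fin N → T N → U) : Prop where
  t : Tow lev f
  t' : Tow lev f'
  l : ∀ x, SS f' (SS f x) = x
  r : ∀ x, SS f (SS f' x) = x

/-- the rotation on level `0` is minimal -/
def MR (lev : Fin N → ℕ) (f : Fin N → T N → U) : Prop :=
  ∀ a : Fin N → ℤ, a ≠ 0 → la lev 0 a → ∑ i, a i • f i 0 ≠ 0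

/-- no nontrivial integer combination of the cocycles of a level `l + 1` is cohomologous to a
function of the levels `< l` (to a constant for `l = 0`) -/
def NE (lev : Fin N → ℕ) (f : Fin N → T N → U) : Prop :=
  ∀ (l : ℕ) (a : Fin N → ℤ), a ≠ 0 → la lev (l + 1) a → ∀ D β : T N → U,
    Measurable D → Measurable β → (∀ x, D (tr lev (l + 1) x) = D x) →
    (∀ x, β (tr lev l x) = β x) →
    ¬ ∀ᵐ x ∂(mm N), (∑ i, a i • f i x) + D x = β x + D (SS f x)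

/-- the same in terms of unimodular functions and for the power `m` -/
def NU (lev : Fin N → ℕ) (f : Fin N → T N → U) (m : ℕ) : Prop :=
  ∀ (l : ℕ) (a : Fin N → ℤ), a ≠ 0 → la lev (l + 1) a → ∀ g : T N → ℂ, UF (mm N) g →
    AM (mm N) (AL lev (l + 1)) g →
    ¬ Inc (mm N) (AL lev l) (SS f)^[m] (fun x => ex a x * g x)

/-- ergodicity of the power `m` and its eigenfunctions -/
def EG (lev : Fin N → ℕ) (f : Fin N → T N → U) (m : ℕ) : Prop :=
  Ergodic (SS f)^[m] (mm N) ∧ ∀ (F : T N → ℂ) (c : ℂ), MemLp F 2 (mm N) →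
    (∀ᵐ x ∂(mm N), F ((SS f)^[m] x) = c * F x) →
    ∃ (k : Fin N → ℤ) (b : ℂ), la lev 0 k ∧ F =ᵐ[mm N] fun x => b * ex k x

/-! ### joinings -/

/-- ergodic joinings of two powers -/
structure JN (f : Fin N → T N → U) (p q : ℕ) (κ : Measure (T N × T N)) : Prop where
  prob : IsProbabilityMeasure κ
  fst : κ.map Prod.fst = mm N
  snd : κ.map Prod.snd = mm N
  erg : Ergodic (Prod.map (SS f)^[p] (SS f)^[q]) κ

/-- the levels `< l` of the first coordinate -/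
noncomputable def A1 (lev : Fin N → ℕ) (l : ℕ) : SA (T N × T N) := cm Prod.fst (AL lev l)

/-- the levels `< l` of the second coordinate -/
noncomputable def B1 (lev : Fin N → ℕ) (l : ℕ) : SA (T N × T N) := cm Prod.snd (AL lev l)

/-- the second coordinate -/
noncomputable def BB (N : ℕ) : SA (T N × T N) := cm Prod.snd (inferInstance : MeasurableSpace (T N))

/-- translation of the level `k` of the first coordinate -/
def Vp (lev : Fin N → ℕ) (k : ℕ) (t : T N) (z : T N × T N) : T N × T N :=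
  (z.1 + pk lev k t, z.2)

/-- the square norm of the conditional expectation of a function of the first coordinate given the
second coordinate -/
noncomputable def JJ (κ : Measure (T N × T N)) (F : T N → ℂ) : ℝ :=
  ∫ z, ‖(κ[fun z => F z.1|BB N]) z‖ ^ 2 ∂κ

/-- truncation of pairs -/
def trp (lev : Fin N → ℕ) (l j : ℕ) (z : T N × T N) : T N × T N := (tr lev l z.1, tr lev j z.2)

/-! ### the hull -/

/-- homogeneous unimodular functions of level `l` with increments (for the power `m`) in `C` -/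
def PP (lev : Fin N → ℕ) (f : Fin N → T N → U) (m : ℕ) (C : SA (T N)) (l : ℕ) :
    Set (T N → ℂ) :=
  {ψ | UF (mm N) ψ ∧ (∃ a, la lev l a ∧ AM (mm N) (AL lev l) (fun x => conj (ex a x) * ψ x)) ∧
    Inc (mm N) C (SS f)^[m] ψ}

/-- the same for one character `a` -/
def PA (lev : Fin N → ℕ) (f : Fin N → T N → U) (m : ℕ) (C : SA (T N)) (l : ℕ)
    (a : Fin N → ℤ) : Set (T N → ℂ) :=
  {ψ | UF (mm N) ψ ∧ AM (mm N) (AL lev l) (fun x => conj (ex a x) * ψ x) ∧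
    Inc (mm N) C (SS f)^[m] ψ}

/-- `ψ` is visible: measurable for the second coordinate and `C` -/
def Vis (κ : Measure (T N × T N)) (C : SA (T N)) (ψ : T N → ℂ) : Prop :=
  AM κ (jo (BB N) (cm Prod.fst C)) (fun z => ψ z.1)

/-- functions in `PP` with a visible power of order prime to `q` -/
def VS (lev : Fin N → ℕ) (f : Fin N → T N → U) (m q : ℕ) (κ : Measure (T N × T N))
    (C : SA (T N)) (l : ℕ) : Set (T N → ℂ) :=
  {ψ | ψ ∈ PP lev f m C l ∧ ∃ M : ℕ, 1 ≤ M ∧ Nat.Coprime M q ∧ Vis κ C (fun x => ψ x ^ M)}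

/-- the hull -/
noncomputable def CC (lev : Fin N → ℕ) (f : Fin N → T N → U) (m q : ℕ) (κ : Measure (T N × T N)) :
    ℕ → SA (T N)
  | 0 => bo
  | l + 1 => jo (CC lev f m q κ l) (sg (VS lev f m q κ (CC lev f m q κ l) l))

/-- the properties of the hull `C` of level `l` -/
structure HP (lev : Fin N → ℕ) (f f' : Fin N → T N → U) (p q : ℕ) (κ : Measure (T N × T N))
    (C : SA (T N)) (l : ℕ) : Prop where
  le : LQ (mm N) C (AL lev l)
  ia : IA (mm N) C (SS f) (SS f')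
  b : ∀ ψ, UF (mm N) ψ → AM (mm N) (AL lev l) ψ → Inc (mm N) C (SS f)^[p] ψ → Vis κ C ψ →
    AM (mm N) C ψ
  c : ∀ ψ, UF (mm N) ψ → AM (mm N) (AL lev l) ψ → Inc (mm N) C (SS f)^[p] ψ →
    ∀ M : ℕ, 1 ≤ M → Nat.Coprime M q → AM (mm N) C (fun x => ψ x ^ M) → AM (mm N) C ψ
  s : ∀ ψ, UF (mm N) ψ → AM (mm N) (AL lev l) ψ → Inc (mm N) C (SS f)^[p] ψ →
    Inc (mm N) C (SS f) ψ

/-- the estimate on the complement of `C` -/
def VE (lev : Fin N → ℕ) (κ : Measure (T N × T N)) (C : SA (T N)) (l : ℕ)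
    (δ : ℝ) : Prop :=
  ∀ G : T N → ℂ, Measurable G → MemLp G 2 (mm N) → AM (mm N) (AL lev l) G →
    (mm N)[G|C] =ᵐ[mm N] 0 → JJ κ G ≤ δ * ∫ x, ‖G x‖ ^ 2 ∂(mm N)

/-- systems of factors of type `q` -/
structure QT (lev : Fin N → ℕ) (f f' : Fin N → T N → U) (q : ℕ) (C : ℕ → SA (T N))
    (W : ℕ → Set (T N → ℂ)) : Prop where
  zero : C 0 = bo
  succ : ∀ l, C (l + 1) = jo (C l) (sg (W l))
  le : ∀ l, LQ (mm N) (C l) (AL lev l)
  ia : ∀ l, IA (mm N) (C l) (SS f) (SS f')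
  grp : ∀ l, Grp (mm N) (W l)
  hom : ∀ l, W l ⊆ PP lev f 1 (C l) l
  ch0 : ∀ l, ∀ ψ ∈ W l, AM (mm N) (AL lev l) ψ → AM (mm N) (C l) ψ
  div : ∀ ψ ∈ W 0, ∀ k, la lev 0 k → AM (mm N) (AL lev 0) (fun x => conj (ex k x) * ψ x) →
    ∀ i, (q : ℤ) ∣ k i

/-- factors of type `q` are trivial on the functions of the levels `< l`, asymptotically -/
def TR (lev : Fin N → ℕ) (f f' : Fin N → T N → U) (l : ℕ) : Prop :=
  ∀ G : T N → ℂ, MemLp G 2 (mm N) → AM (mm N) (AL lev l) G → ∫ x, G x ∂(mm N) = 0 →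
    ∀ ε : ℝ, 0 < ε → ∃ q₀ : ℕ, ∀ q ≥ q₀, ∀ (C : ℕ → SA (T N)) (W : ℕ → Set (T N → ℂ)),
      QT lev f f' q C W → ∫ x, ‖((mm N)[G|C l]) x‖ ^ 2 ∂(mm N) ≤ ε

end tow

end Pool.Agent.Helper98.TW
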